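import Mathlib

/-! Operators of bounded support expansion: definitions. -/

namespace Pool.Agent.Lib.MP_612f91_an

open MeasureTheory
open scoped ENNReal NNReal

/-- The Hilbert space `L²(X, μ)`. -/
abbrev L2 {X : Type*} [MeasurableSpace X] (μ : Measure X) : Type _ := Lp ℂ 2 μ

/-- Multiplication by the indicator function of a measurable set `A`, as an operator on `L²`. -/
noncomputable def proj {X : Type*} [MeasurableSpace X] (μ : Measure X) (A : Set X)
    (hA : MeasurableSet A) : L2 μ →L[ℂ] L2 μ :=
  (ContinuousLinearMap.mul ℂ ℂ).holderL μ ∞ 2 2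
    (MemLp.toLp (A.indicator fun _ => (1 : ℂ)) ((memLp_top_const (1 : ℂ)).indicator hA))

/-- The measure of the left support of `b`: the infimum of `μ B` over all measurable `B` whose
indicator projection `p` satisfies `p b = b`. -/
noncomputable def suppMeasure {X : Type*} [MeasurableSpace X] (μ : Measure X)
    (b : L2 μ →L[ℂ] L2 μ) : ℝ≥0∞ :=
  ⨅ (B : Set X) (hB : MeasurableSet B) (_ : proj μ B hB * b = b), μ B

/-- Bounded support expansion. -/
def BddSuppExp {X : Type*} [MeasurableSpace X] (μ : Measure X)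
    (a : L2 μ →L[ℂ] L2 μ) : Prop :=
  ∃ l : ℝ≥0, ∀ (A : Set X) (hA : MeasurableSet A),
    suppMeasure μ (a * proj μ A hA) ≤ l * μ A ∧ suppMeasure μ (star a * proj μ A hA) ≤ l * μ A

end Pool.Agent.Lib.MP_612f91_an
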