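import Mathlib
import Pool.Agent.Lib.MP_612f91_an.Defs

/-! Basic facts on indicator projections and on operators of bounded support expansion. -/

namespace Pool.Agent.Lib.MP_612f91_an

open MeasureTheory Set Filter
open scoped ENNReal NNReal InnerProductSpace Topology

variable {X : Type*} [MeasurableSpace X] {μ : Measure X} {A B : Set X}

lemma coeFn_proj (hA : MeasurableSet A) (f : Lp ℂ 2 μ) :
    proj μ A hA f =ᵐ[μ] A.indicator f := by
  rw [proj, ContinuousLinearMap.holderL_apply_apply]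
  have hm : MemLp (A.indicator fun _ => (1 : ℂ)) ∞ μ := (memLp_top_const (1 : ℂ)).indicator hA
  have h1 := (ContinuousLinearMap.mul ℂ ℂ).coeFn_holder (r := 2) (MemLp.toLp _ hm) f
  have h2 := MemLp.coeFn_toLp hm
  refine h1.trans ?_
  filter_upwards [h2] with x hx
  rw [hx]
  by_cases h : x ∈ A <;> simp [h]

lemma proj_proj (hA : MeasurableSet A) (hB : MeasurableSet B) (f : Lp ℂ 2 μ) :
    proj μ A hA (proj μ B hB f) = proj μ (A ∩ B) (hA.inter hB) f := by
  apply Lp.ext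
  filter_upwards [coeFn_proj hA (proj μ B hB f), coeFn_proj hB f, coeFn_proj (hA.inter hB) f]
    with x h1 h2 h3
  rw [h1, h3]
  by_cases h : x ∈ A <;> by_cases h' : x ∈ B <;> simp [h, h', h2]

lemma proj_congr (hA : MeasurableSet A) (hB : MeasurableSet B) (h : A = B) :
    proj μ A hA = proj μ B hB := by subst h; rfl

lemma proj_compl (hA : MeasurableSet A) (f : Lp ℂ 2 μ) :
    proj μ Aᶜ hA.compl f = f - proj μ A hA f := by
  apply Lp.ext
  filter_upwards [coeFn_proj hA.compl f, coeFn_proj hA f, Lp.coeFn_sub f (proj μ A hA f)]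
    with x h1 h2 h3
  rw [h1, h3, Pi.sub_apply, h2]
  by_cases h : x ∈ A <;> simp [h]

lemma proj_univ (f : Lp ℂ 2 μ) : proj μ univ MeasurableSet.univ f = f := by
  apply Lp.ext
  filter_upwards [coeFn_proj MeasurableSet.univ f] with x h1
  rw [h1]; simp

lemma proj_eq_zero (hA : MeasurableSet A) (h : μ A = 0) (f : Lp ℂ 2 μ) : proj μ A hA f = 0 := by
  apply Lp.ext
  filter_upwards [coeFn_proj hA f, measure_eq_zero_iff_ae_notMem.mp h, Lp.coeFn_zero ℂ 2 μ]
    with x h1 h2 h3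
  rw [h1, h3]; simp [h2]

lemma proj_congr_ae (hA : MeasurableSet A) (hB : MeasurableSet B) (h : A =ᵐ[μ] B)
    (f : Lp ℂ 2 μ) : proj μ A hA f = proj μ B hB f := by
  apply Lp.ext
  filter_upwards [coeFn_proj hA f, coeFn_proj hB f, h] with x h1 h2 h3
  have h4 : x ∈ A ↔ x ∈ B := h3.to_iff
  rw [h1, h2]
  by_cases h : x ∈ A
  · simp [h, h4.mp h]
  · simp [h, mt h4.mpr h]

lemma proj_of_subset (hA : MeasurableSet A) (hB : MeasurableSet B) (h : A ⊆ B) {f : Lp ℂ 2 μ}
    (hf : proj μ A hA f = f) : proj μ B hB f = f := by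
  rw [← hf, proj_proj, proj_congr _ hA (inter_eq_right.mpr h)]

lemma inner_proj (hA : MeasurableSet A) (g f : Lp ℂ 2 μ) :
    ⟪g, proj μ A hA f⟫_ℂ = ∫ x in A, ⟪g x, f x⟫_ℂ ∂μ := by
  rw [L2.inner_def, ← integral_indicator hA]
  refine integral_congr_ae ?_
  filter_upwards [coeFn_proj hA f] with x h
  rw [h]
  by_cases hx : x ∈ A <;> simp [hx]

lemma inner_proj_left (hA : MeasurableSet A) (g f : Lp ℂ 2 μ) :
    ⟪proj μ A hA g, f⟫_ℂ = ⟪g, proj μ A hA f⟫_ℂ := by
  rw [inner_proj, L2.inner_def, ← integral_indicator hA]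
  refine integral_congr_ae ?_
  filter_upwards [coeFn_proj hA g] with x h
  rw [h]
  by_cases hx : x ∈ A <;> simp [hx]

lemma star_proj (hA : MeasurableSet A) : star (proj μ A hA) = proj μ A hA := by
  rw [ContinuousLinearMap.star_eq_adjoint, eq_comm, ContinuousLinearMap.eq_adjoint_iff]
  exact inner_proj_left hA

lemma tendsto_inner_proj {s : ℕ → Set X} (hs : ∀ k, MeasurableSet (s k)) (hm : Monotone s)
    (g f : Lp ℂ 2 μ) :
    Tendsto (fun k => ⟪g, proj μ (s k) (hs k) f⟫_ℂ) atTop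
      (𝓝 ⟪g, proj μ (⋃ k, s k) (MeasurableSet.iUnion hs) f⟫_ℂ) := by
  simp only [inner_proj]
  exact tendsto_setIntegral_of_monotone hs hm (L2.integrable_inner g f).integrableOn

lemma proj_indicator (hA : MeasurableSet A) (hB : MeasurableSet B) (hB' : μ B ≠ ∞) :
    proj μ A hA (indicatorConstLp 2 hB hB' (1 : ℂ)) = indicatorConstLp 2 (hA.inter hB)
      (ne_top_of_le_ne_top hB' (measure_mono inter_subset_right)) (1 : ℂ) := by
  apply Lp.ext
  filter_upwards [coeFn_proj hA (indicatorConstLp 2 hB hB' (1 : ℂ)),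
    indicatorConstLp_coeFn (p := 2) (hs := hB) (hμs := hB') (c := (1 : ℂ)),
    indicatorConstLp_coeFn (p := 2) (hs := hA.inter hB)
      (hμs := ne_top_of_le_ne_top hB' (measure_mono inter_subset_right)) (c := (1 : ℂ))]
    with x h1 h2 h3
  rw [h1, h3]
  by_cases h : x ∈ A <;> by_cases h' : x ∈ B <;> simp [h, h', h2]

lemma indicator_congr (hA : MeasurableSet A) (hB : MeasurableSet B) (hA' : μ A ≠ ∞)
    (hB' : μ B ≠ ∞) (h : A = B) :
    indicatorConstLp 2 hA hA' (1 : ℂ) = indicatorConstLp 2 hB hB' (1 : ℂ) := by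
  subst h; rfl

lemma inner_indicator_proj (hA : MeasurableSet A) (hB : MeasurableSet B) (hB' : μ B ≠ ∞) :
    ⟪indicatorConstLp 2 hB hB' (1 : ℂ), proj μ A hA (indicatorConstLp 2 hB hB' (1 : ℂ))⟫_ℂ
      = μ.real (A ∩ B) := by
  rw [proj_indicator, L2.inner_indicatorConstLp_one_indicatorConstLp_one]
  congr 2
  ext x
  simp only [mem_inter_iff]
  tauto

lemma proj_eq_zero_of_inner (hB : MeasurableSet B) (hB' : μ B ≠ ∞) {g : Lp ℂ 2 μ}
    (h : ∀ A (hA : MeasurableSet A),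
      ⟪proj μ A hA (indicatorConstLp 2 hB hB' (1 : ℂ)), g⟫_ℂ = 0) : proj μ B hB g = 0 := by
  apply Lp.ext
  refine (Lp.ae_eq_zero_of_forall_setIntegral_eq_zero _ (by norm_num) (by norm_num)
    (fun s _ hs => integrableOn_Lp_of_measure_ne_top _ (by norm_num) hs.ne) fun s hs hs' => ?_).trans
    (Lp.coeFn_zero ℂ 2 μ).symm
  rw [← L2.inner_indicatorConstLp_one hs hs'.ne, ← inner_proj_left, proj_indicator,
    ← h s hs, proj_indicator, indicator_congr _ _ _ _ (inter_comm B s)]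

lemma suppMeasure_le {b : Lp ℂ 2 μ →L[ℂ] Lp ℂ 2 μ} (hB : MeasurableSet B)
    (h : ∀ f, proj μ B hB (b f) = b f) : suppMeasure μ b ≤ μ B :=
  iInf_le_of_le B (iInf_le_of_le hB (iInf_le_of_le (ContinuousLinearMap.ext h) le_rfl))

lemma le_mul_suppMeasure {b : Lp ℂ 2 μ →L[ℂ] Lp ℂ 2 μ} {t : ℝ≥0∞} {l : ℝ≥0}
    (h : ∀ B (hB : MeasurableSet B), (∀ f, proj μ B hB (b f) = b f) → t ≤ l * μ B) :
    t ≤ l * suppMeasure μ b := by
  rcases eq_or_ne l 0 with rfl | hl
  · simpa using h univ MeasurableSet.univ fun f => proj_univ _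
  · have hl' : (l : ℝ≥0∞) ≠ 0 := by simpa using hl
    simp only [suppMeasure, ENNReal.mul_iInf_of_ne hl' ENNReal.coe_ne_top, le_iInf_iff]
    exact fun B hB hb => h B hB fun f => congrFun (congrArg DFunLike.coe hb) f

lemma suppMeasure_add (a b : Lp ℂ 2 μ →L[ℂ] Lp ℂ 2 μ) :
    suppMeasure μ (a + b) ≤ suppMeasure μ a + suppMeasure μ b := by
  simp only [suppMeasure]
  refine ENNReal.le_iInf₂_add_iInf₂ fun A hA B hB => ENNReal.le_iInf_add_iInf fun ha hb => ?_
  refine (suppMeasure_le (hA.union hB) fun f => ?_).trans (measure_union_le _ _)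
  have ha' : proj μ A hA (a f) = a f := congrFun (congrArg DFunLike.coe ha) f
  have hb' : proj μ B hB (b f) = b f := congrFun (congrArg DFunLike.coe hb) f
  rw [add_apply, map_add, proj_of_subset hA _ subset_union_left ha',
    proj_of_subset hB _ subset_union_right hb']

lemma suppMeasure_mul {a b : Lp ℂ 2 μ →L[ℂ] Lp ℂ 2 μ} {l : ℝ≥0}
    (h : ∀ (A : Set X) (hA : MeasurableSet A), suppMeasure μ (a * proj μ A hA) ≤ l * μ A) :
    suppMeasure μ (a * b) ≤ l * suppMeasure μ b := by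
  refine le_mul_suppMeasure fun B hB hb => le_trans ?_ (h B hB)
  refine le_iInf fun C => le_iInf fun hC => le_iInf fun hc => suppMeasure_le hC fun f => ?_
  have h1 : proj μ C hC (a (proj μ B hB (b f))) = a (proj μ B hB (b f)) :=
    congrFun (congrArg DFunLike.coe hc) (b f)
  rw [hb] at h1
  exact h1

lemma BddSuppExp.star {a : Lp ℂ 2 μ →L[ℂ] Lp ℂ 2 μ} (h : BddSuppExp μ a) :
    BddSuppExp μ (star a) := by
  obtain ⟨l, h⟩ := h
  exact ⟨l, fun A hA => ⟨(h A hA).2, by rw [star_star]; exact (h A hA).1⟩⟩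

lemma BddSuppExp.add {a b : Lp ℂ 2 μ →L[ℂ] Lp ℂ 2 μ} (ha : BddSuppExp μ a) (hb : BddSuppExp μ b) :
    BddSuppExp μ (a + b) := by
  obtain ⟨l, ha⟩ := ha
  obtain ⟨l', hb⟩ := hb
  refine ⟨l + l', fun A hA => ⟨?_, ?_⟩⟩
  · rw [add_mul, ENNReal.coe_add, add_mul]
    exact (suppMeasure_add _ _).trans (add_le_add (ha A hA).1 (hb A hA).1)
  · rw [star_add, add_mul, ENNReal.coe_add, add_mul]
    exact (suppMeasure_add _ _).trans (add_le_add (ha A hA).2 (hb A hA).2)

lemma BddSuppExp.mul {a b : Lp ℂ 2 μ →L[ℂ] Lp ℂ 2 μ} (ha : BddSuppExp μ a) (hb : BddSuppExp μ b) :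
    BddSuppExp μ (a * b) := by
  obtain ⟨l, ha⟩ := ha
  obtain ⟨l', hb⟩ := hb
  refine ⟨l * l', fun A hA => ⟨?_, ?_⟩⟩
  · rw [mul_assoc, ENNReal.coe_mul, mul_assoc]
    exact (suppMeasure_mul fun A hA => (ha A hA).1).trans (mul_le_mul_right (hb A hA).1 _)
  · rw [star_mul, mul_assoc, ENNReal.coe_mul, mul_comm (l : ℝ≥0∞), mul_assoc]
    exact (suppMeasure_mul fun A hA => (hb A hA).2).trans (mul_le_mul_right (ha A hA).2 _)

lemma bddSuppExp_algebraMap (c : ℂ) :
    BddSuppExp μ (algebraMap ℂ (Lp ℂ 2 μ →L[ℂ] Lp ℂ 2 μ) c) := by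
  have h : ∀ (c : ℂ) (A : Set X) (hA : MeasurableSet A),
      suppMeasure μ (algebraMap ℂ (Lp ℂ 2 μ →L[ℂ] Lp ℂ 2 μ) c * proj μ A hA) ≤ (1 : ℝ≥0) * μ A := by
    intro c A hA
    rw [ENNReal.coe_one, one_mul]
    refine suppMeasure_le hA fun f => ?_
    rw [← Algebra.smul_def, smul_apply, map_smul, proj_proj, proj_congr _ hA (inter_self A)]
  refine ⟨1, fun A hA => ⟨h c A hA, ?_⟩⟩
  rw [← algebraMap_star_comm]
  exact h _ A hA

lemma bddSuppExp_proj (hB : MeasurableSet B) : BddSuppExp μ (proj μ B hB) := by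
  have h : ∀ (A : Set X) (hA : MeasurableSet A),
      suppMeasure μ (proj μ B hB * proj μ A hA) ≤ (1 : ℝ≥0) * μ A := by
    intro A hA
    rw [ENNReal.coe_one, one_mul]
    refine suppMeasure_le hA fun f => ?_
    rw [mul_apply_eq_comp, proj_proj, proj_proj, proj_proj]
    congr 1
    apply proj_congr
    ext x
    simp only [mem_inter_iff]
    tauto
  exact ⟨1, fun A hA => ⟨h A hA, by rw [star_proj]; exact h A hA⟩⟩

end Pool.Agent.Lib.MP_612f91_an
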