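import Mathlib
import Pool.Agent.Lib.MP_612f91_an.Proj

/-! The star algebra of operators of bounded support expansion and its norm closure. -/

namespace Pool.Agent.Lib.MP_612f91_an

open MeasureTheory

/-- The unital star algebra of operators of bounded support expansion. -/
def suppExpAlgebra {X : Type*} [MeasurableSpace X] (μ : Measure X) :
    StarSubalgebra ℂ (L2 μ →L[ℂ] L2 μ) where
  carrier := {a | BddSuppExp μ a}
  mul_mem' := BddSuppExp.mul
  add_mem' := BddSuppExp.add
  algebraMap_mem' := bddSuppExp_algebraMap
  star_mem' := BddSuppExp.star

/-- The norm closure of the algebra of operators of bounded support expansion. -/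
noncomputable def Cu {X : Type*} [MeasurableSpace X] (μ : Measure X) :
    StarSubalgebra ℂ (L2 μ →L[ℂ] L2 μ) :=
  (suppExpAlgebra μ).topologicalClosure

end Pool.Agent.Lib.MP_612f91_an
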