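import Mathlib

/-! Relatively atomless sub-sigma-algebras: sets with prescribed conditional measure. -/

namespace Pool.Agent.Lib.MP_612f91_an

open MeasureTheory Set
open scoped ENNReal NNReal

variable {X : Type*} {n m : MeasurableSpace X} {P : Measure X}

/-- no set of positive measure has all its measurable subsets cut out by `n` -/
def RelAtomless (n : MeasurableSpace X) {m : MeasurableSpace X} (P : Measure X) : Prop :=
  ∀ A, MeasurableSet A → P A ≠ 0 → ∃ A', MeasurableSet A' ∧ A' ⊆ A ∧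
    ∀ B, MeasurableSet[n] B → ¬ (A' =ᵐ[P] (A ∩ B : Set X))

lemma hahn_sub [IsFiniteMeasure P] (hn : n ≤ m) (A₁ A₂ : Set X) :
    ∃ S, MeasurableSet[n] S ∧ ∀ B, MeasurableSet[n] B →
      P (A₁ ∩ (B ∩ S)) ≤ P (A₂ ∩ (B ∩ S)) ∧ P (A₂ ∩ (B ∩ Sᶜ)) ≤ P (A₁ ∩ (B ∩ Sᶜ)) := by
  obtain ⟨S, hS, h1, h2⟩ := @hahn_decomposition X n ((P.restrict A₂).trim hn)
    ((P.restrict A₁).trim hn) _ _
  refine ⟨S, hS, fun B hB => ⟨?_, ?_⟩⟩
  · have h := h1 (B ∩ S) (hB.inter hS) inter_subset_right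
    rwa [trim_measurableSet_eq hn (hB.inter hS), trim_measurableSet_eq hn (hB.inter hS),
      Measure.restrict_apply (hn _ (hB.inter hS)), Measure.restrict_apply (hn _ (hB.inter hS)),
      inter_comm _ A₁, inter_comm _ A₂] at h
  · have h := h2 (B ∩ Sᶜ) (hB.inter hS.compl) inter_subset_right
    rwa [trim_measurableSet_eq hn (hB.inter hS.compl), trim_measurableSet_eq hn (hB.inter hS.compl),
      Measure.restrict_apply (hn _ (hB.inter hS.compl)),
      Measure.restrict_apply (hn _ (hB.inter hS.compl)),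
      inter_comm _ A₁, inter_comm _ A₂] at h

lemma meas_split (T : Set X) {S : Set X} (hS : MeasurableSet S) :
    P T = P (T ∩ S) + P (T ∩ Sᶜ) := (measure_inter_add_sdiff T hS).symm

lemma exists_half [IsFiniteMeasure P] (hn : n ≤ m) (h : RelAtomless n P) {A : Set X}
    (hA : MeasurableSet A) (hA0 : P A ≠ 0) :
    ∃ C, MeasurableSet C ∧ C ⊆ A ∧ P C ≠ 0 ∧
      ∀ B, MeasurableSet[n] B → 2 * P (C ∩ B) ≤ P (A ∩ B) := by
  obtain ⟨A', hA', hsub, hne⟩ := h A hA hA0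
  obtain ⟨S, hS, hH⟩ := hahn_sub (P := P) hn A' (A ∩ A'ᶜ)
  have hSm : MeasurableSet S := hn _ hS
  refine ⟨(A' ∩ S) ∪ (A ∩ A'ᶜ ∩ Sᶜ), (hA'.inter hSm).union ((hA.inter hA'.compl).inter hSm.compl),
    ?_, ?_, fun B hB => ?_⟩
  · rintro x (hx | hx)
    · exact hsub hx.1
    · exact hx.1.1
  · intro h0
    apply hne Sᶜ hS.compl
    filter_upwards [measure_eq_zero_iff_ae_notMem.mp h0] with x hx
    apply propext
    change x ∈ A' ↔ x ∈ A ∩ Sᶜ
    have := @hsub x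
    simp only [mem_union, mem_inter_iff, mem_compl_iff] at hx ⊢
    tauto
  · obtain ⟨h1, h2⟩ := hH B hB
    have e1 : P (((A' ∩ S) ∪ (A ∩ A'ᶜ ∩ Sᶜ)) ∩ B)
        = P (A' ∩ (B ∩ S)) + P (A ∩ A'ᶜ ∩ (B ∩ Sᶜ)) := by
      rw [meas_split _ hSm]
      congr 2 <;> ext x <;> simp only [mem_union, mem_inter_iff, mem_compl_iff] <;> tauto
    have e2 : P (A ∩ B) = (P (A' ∩ (B ∩ S)) + P (A ∩ A'ᶜ ∩ (B ∩ S)))
        + (P (A' ∩ (B ∩ Sᶜ)) + P (A ∩ A'ᶜ ∩ (B ∩ Sᶜ))) := by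
      rw [meas_split (A ∩ B) hSm, meas_split (A ∩ B ∩ S) hA', meas_split (A ∩ B ∩ Sᶜ) hA']
      congr 3 <;> ext x <;> have := @hsub x <;>
        simp only [mem_inter_iff, mem_compl_iff] <;> tauto
    rw [e1, e2, mul_add, two_mul, two_mul]
    exact add_le_add (add_le_add le_rfl h1) (add_le_add h2 le_rfl)

lemma exists_small [IsFiniteMeasure P] (hn : n ≤ m) (h : RelAtomless n P) {A : Set X}
    (hA : MeasurableSet A) (hA0 : P A ≠ 0) (k : ℕ) :
    ∃ C, MeasurableSet C ∧ C ⊆ A ∧ P C ≠ 0 ∧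
      ∀ B, MeasurableSet[n] B → 2 ^ k * P (C ∩ B) ≤ P (A ∩ B) := by
  induction k with
  | zero => exact ⟨A, hA, subset_rfl, hA0, fun B _ => by simp⟩
  | succ k ih =>
    obtain ⟨C, hC, hCA, hC0, hCB⟩ := ih
    obtain ⟨D, hD, hDC, hD0, hDB⟩ := exists_half hn h hC hC0
    refine ⟨D, hD, hDC.trans hCA, hD0, fun B hB => ?_⟩
    rw [pow_succ, mul_assoc]
    exact (mul_le_mul_right (hDB B hB) _).trans (hCB B hB)

lemma exists_measure_maximal [IsFiniteMeasure P] (F : Set (Set X)) {C₀ : Set X} (h0 : C₀ ∈ F)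
    (hU : ∀ f : ℕ → Set X, Monotone f → (∀ k, f k ∈ F) → (⋃ k, f k) ∈ F) :
    ∃ C ∈ F, ∀ D ∈ F, C ⊆ D → P D ≤ P C := by
  have step : ∀ (k : ℕ) (C : F), ∃ D : F, (C : Set X) ⊆ D ∧
      ∀ D' ∈ F, (C : Set X) ⊆ D' → P.real D' ≤ P.real D + 1 / (k + 1 : ℝ) := by
    intro k C
    have hb : BddAbove (P.real '' {D | D ∈ F ∧ (C : Set X) ⊆ D}) :=
      ⟨P.real univ, by rintro _ ⟨D, -, rfl⟩; exact measureReal_mono (subset_univ _)⟩
    have hne : (P.real '' {D | D ∈ F ∧ (C : Set X) ⊆ D}).Nonempty := ⟨_, C, ⟨C.2, subset_rfl⟩, rfl⟩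
    have hpos : (0 : ℝ) < 1 / (k + 1 : ℝ) := by positivity
    obtain ⟨_, ⟨D, hD, rfl⟩, hlt⟩ := Real.add_neg_lt_sSup hne (neg_lt_zero.mpr hpos)
    refine ⟨⟨D, hD.1⟩, hD.2, fun D' h1 h2 => ?_⟩
    have := le_csSup hb ⟨D', ⟨h1, h2⟩, rfl⟩
    simp only
    linarith
  choose g hg1 hg2 using step
  let f : ℕ → F := fun k => Nat.rec ⟨C₀, h0⟩ (fun k C => g k C) k
  have hmono : Monotone fun k : ℕ => (f k).1 :=
    monotone_nat_of_le_succ (f := fun k : ℕ => (f k).1) fun k => hg1 k (f k)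
  refine ⟨⋃ k : ℕ, (f k).1, hU (fun k : ℕ => (f k).1) hmono fun k => (f k).2,
    fun D hD hsub => ?_⟩
  have h1 : ∀ k : ℕ, P.real D ≤ P.real (⋃ k : ℕ, (f k).1) + 1 / (k + 1 : ℝ) := by
    intro k
    have h2 := hg2 k (f k) D hD ((subset_iUnion (fun k : ℕ => (f k).1) k).trans hsub)
    have h3 : P.real (f (k + 1)).1 ≤ P.real (⋃ k : ℕ, (f k).1) :=
      measureReal_mono (subset_iUnion (fun k : ℕ => (f k).1) (k + 1))
    have h4 : g k (f k) = f (k + 1) := rfl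
    rw [h4] at h2
    linarith
  have h2 : P.real D ≤ P.real (⋃ k : ℕ, (f k).1) := by
    refine le_of_forall_pos_le_add fun ε hε => ?_
    obtain ⟨k, hk⟩ := exists_nat_one_div_lt hε
    exact (h1 k).trans (by linarith)
  exact (ENNReal.toReal_le_toReal (measure_ne_top _ _) (measure_ne_top _ _)).mp h2

lemma exists_cond [IsFiniteMeasure P] (hn : n ≤ m) (h : RelAtomless n P) {A : Set X}
    (hA : MeasurableSet A) (ν : @Measure X n)
    (hν : ∀ B, MeasurableSet[n] B → ν B ≤ P (A ∩ B)) :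
    ∃ C, MeasurableSet C ∧ C ⊆ A ∧ ∀ B, MeasurableSet[n] B → P (C ∩ B) = ν B := by
  obtain ⟨C, ⟨hC, hCA, hCν⟩, hmax⟩ := exists_measure_maximal (P := P)
    {C | MeasurableSet C ∧ C ⊆ A ∧ ∀ B, MeasurableSet[n] B → P (C ∩ B) ≤ ν B} (C₀ := ∅)
    ⟨MeasurableSet.empty, empty_subset _, fun B _ => by simp⟩ (by
      intro f hf hF
      refine ⟨MeasurableSet.iUnion fun k => (hF k).1, iUnion_subset fun k => (hF k).2.1,
        fun B hB => ?_⟩
      rw [iUnion_inter, Monotone.measure_iUnion fun i j hij => inter_subset_inter_left _ (hf hij)]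
      exact iSup_le fun k => (hF k).2.2 B hB)
  refine ⟨C, hC, hCA, ?_⟩
  have htr : ∀ (T B : Set X), MeasurableSet[n] B → (P.restrict T).trim hn B = P (T ∩ B) := by
    intro T B hB
    rw [trim_measurableSet_eq hn hB, Measure.restrict_apply (hn _ hB), inter_comm]
  have hfin : @IsFiniteMeasure X n ν :=
    ⟨(hν univ (@MeasurableSet.univ X n)).trans_lt (measure_lt_top _ _)⟩
  have hle : (P.restrict C).trim hn ≤ ν :=
    Measure.le_iff.mpr fun B hB => by rw [htr _ _ hB]; exact hCν B hB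
  set ρ : @Measure X n := ν - (P.restrict C).trim hn with hρ
  have hρB : ∀ B, MeasurableSet[n] B → ρ B + P (C ∩ B) = ν B := by
    intro B hB
    rw [← htr _ _ hB, ← Measure.add_apply, hρ, Measure.sub_add_cancel_of_le hle]
  have hρσ : ρ ≤ (P.restrict (A ∩ Cᶜ)).trim hn := by
    refine Measure.le_iff.mpr fun B hB => ?_
    rw [htr _ _ hB]
    have h1 := hν B hB
    rw [← hρB B hB, meas_split (A ∩ B) hC, add_comm (P (A ∩ B ∩ C))] at h1
    have e1 : A ∩ B ∩ C = C ∩ B := by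
      ext x; have := @hCA x; simp only [mem_inter_iff]; tauto
    have e2 : A ∩ B ∩ Cᶜ = A ∩ Cᶜ ∩ B := by
      ext x; simp only [mem_inter_iff]; tauto
    rw [e1, e2] at h1
    exact ENNReal.le_of_add_le_add_right (measure_ne_top _ _) h1
  have hρ0 : ρ = 0 := by
    by_contra hne
    have hns : ¬ ρ ⟂ₘ (P.restrict (A ∩ Cᶜ)).trim hn := fun hs =>
      hne (Measure.eq_zero_of_absolutelyContinuous_of_mutuallySingular
        (Measure.absolutelyContinuous_of_le hρσ) hs)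
    obtain ⟨ε, hε, E, hE, hE0, hEB⟩ :=
      @Measure.exists_positive_of_not_mutuallySingular X n ρ _ _ _ hns
    rw [htr _ _ hE] at hE0
    obtain ⟨k, hk⟩ : ∃ k : ℕ, 1 ≤ (ε : ℝ≥0∞) * 2 ^ k := by
      obtain ⟨k, hk⟩ := pow_unbounded_of_one_lt ε⁻¹ (by norm_num : (1 : ℝ≥0) < 2)
      refine ⟨k, ?_⟩
      have : 1 ≤ ε * 2 ^ k := by
        rw [← mul_inv_cancel₀ hε.ne']
        exact mul_le_mul_right hk.le _
      exact_mod_cast this
    obtain ⟨D, hD, hDs, hD0, hDB⟩ := exists_small hn h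
      ((hA.inter hC.compl).inter (hn _ hE)) hE0.ne' k
    have hdisj : Disjoint C D := by
      rw [disjoint_left]
      exact fun x hx hxD => (hDs hxD).1.2 hx
    have hmem := hmax (C ∪ D) ⟨hC.union hD, union_subset hCA fun x hx => (hDs hx).1.1,
      fun B hB => ?_⟩ subset_union_left
    · rw [measure_union hdisj hD] at hmem
      have h2 : P C + P D ≤ P C + 0 := by simpa using hmem
      exact hD0 (le_zero_iff.mp (ENNReal.le_of_add_le_add_left (measure_ne_top _ _) h2))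
    · have h1 := hEB B hB
      rw [htr _ _ (hB.inter hE)] at h1
      have h2 := hDB B hB
      have e : A ∩ Cᶜ ∩ E ∩ B = A ∩ Cᶜ ∩ (B ∩ E) := by
        ext x; simp only [mem_inter_iff]; tauto
      rw [e] at h2
      have h3 : P (D ∩ B) ≤ ρ B := calc
        P (D ∩ B) = 1 * P (D ∩ B) := (one_mul _).symm
        _ ≤ (ε * 2 ^ k) * P (D ∩ B) := mul_le_mul_left hk _
        _ = ε * (2 ^ k * P (D ∩ B)) := mul_assoc _ _ _
        _ ≤ ε * P (A ∩ Cᶜ ∩ (B ∩ E)) := mul_le_mul_right h2 _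
        _ ≤ ρ (B ∩ E) := h1
        _ ≤ ρ B := measure_mono inter_subset_left
      rw [union_inter_distrib_right, ← hρB B hB, add_comm]
      exact (measure_union_le _ _).trans (add_le_add le_rfl h3)
  intro B hB
  rw [← hρB B hB, hρ0]
  simp

lemma exists_step [IsFiniteMeasure P] (hn : n ≤ m) (h : RelAtomless n P) {a : Set X}
    (ha : MeasurableSet a) :
    ∃ c, MeasurableSet c ∧ (∀ B, MeasurableSet[n] B → 2 * P (c ∩ B) = P B) ∧
      ∃ S, MeasurableSet[n] S ∧ a ∩ c = S ∩ c := by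
  obtain ⟨S, hS, hH⟩ := hahn_sub (P := P) hn aᶜ a
  have hSm : MeasurableSet S := hn _ hS
  obtain ⟨C, hC, hCA, hCB⟩ := exists_cond hn h ((ha.inter hSm).union (ha.compl.inter hSm.compl))
    ((2⁻¹ : ℝ≥0∞) • P.trim hn) (by
      intro B hB
      obtain ⟨h1, h2⟩ := hH B hB
      rw [Measure.smul_apply, trim_measurableSet_eq hn hB, smul_eq_mul,
        ← ENNReal.div_eq_inv_mul]
      apply ENNReal.div_le_of_le_mul'
      have e1 : P (((a ∩ S) ∪ (aᶜ ∩ Sᶜ)) ∩ B) = P (a ∩ (B ∩ S)) + P (aᶜ ∩ (B ∩ Sᶜ)) := by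
        rw [meas_split _ hSm]
        congr 2 <;> ext x <;> simp only [mem_union, mem_inter_iff, mem_compl_iff] <;> tauto
      have e2 : P B = (P (a ∩ (B ∩ S)) + P (aᶜ ∩ (B ∩ S)))
          + (P (a ∩ (B ∩ Sᶜ)) + P (aᶜ ∩ (B ∩ Sᶜ))) := by
        rw [meas_split B hSm, meas_split (B ∩ S) ha, meas_split (B ∩ Sᶜ) ha]
        congr 3 <;> exact inter_comm _ _
      rw [e1, e2, mul_add, two_mul, two_mul]
      exact add_le_add (add_le_add le_rfl h1) (add_le_add h2 le_rfl))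
  refine ⟨C, hC, fun B hB => ?_, S, hS, ?_⟩
  · rw [hCB B hB, Measure.smul_apply, trim_measurableSet_eq hn hB, smul_eq_mul, ← mul_assoc,
      ENNReal.mul_inv_cancel (by norm_num) (by norm_num), one_mul]
  · ext x
    have := @hCA x
    simp only [mem_union, mem_inter_iff, mem_compl_iff] at this ⊢
    tauto

end Pool.Agent.Lib.MP_612f91_an
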