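import Mathlib
import Pool.Agent.Lib.MP_612f91_an.RelAtomless

/-! A form of Maharam's theorem: every set of finite positive measure contains an atom or a set
whose measure algebra is generated by an infinite independent family of sets of half measure. -/

namespace Pool.Agent.Lib.MP_612f91_an

open MeasureTheory Set MeasurableSpace Cardinal
open scoped ENNReal NNReal

universe u

variable {X : Type u} {m : MeasurableSpace X}

/-- `G` generates the measure algebra of `P` -/
def Gen (P : Measure X) (G : Set (Set X)) : Prop :=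
  (∀ g ∈ G, MeasurableSet g) ∧
    ∀ A, MeasurableSet A → ∃ B, MeasurableSet[generateFrom G] B ∧ A =ᵐ[P] B

lemma exists_recursive {I : Type*} [LinearOrder I] [WellFoundedLT I]
    (Q : I → Set (Set X) → Set X → Prop)
    (h : ∀ i G, (∀ g ∈ G, MeasurableSet g) → (∃ c : I → Set X, G = c '' Iio i) →
      ∃ c, MeasurableSet c ∧ Q i G c) :
    ∃ c : I → Set X, ∀ i, MeasurableSet (c i) ∧ Q i (c '' Iio i) (c i) := by
  classical
  let F : ∀ i : I, (∀ j, j < i → Set X) → Set X := fun i prev =>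
    if h : ∃ c, MeasurableSet c ∧ Q i {s | ∃ j, ∃ hj : j < i, prev j hj = s} c then h.choose else ∅
  let c : I → Set X := (wellFounded_lt (α := I)).fix F
  have hc : ∀ i, c i = F i fun j _ => c j := fun i => WellFounded.fix_eq _ F i
  have hset : ∀ i, {s | ∃ j, ∃ _ : j < i, c j = s} = c '' Iio i := by
    intro i; ext s; simp
  have hmeas : ∀ i, MeasurableSet (c i) := by
    intro i
    rw [hc]
    simp only [F]
    split_ifs with h
    · exact h.choose_spec.1
    · exact MeasurableSet.empty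
  refine ⟨c, fun i => ⟨hmeas i, ?_⟩⟩
  have hex := h i (c '' Iio i) (by rintro _ ⟨j, -, rfl⟩; exact hmeas j) ⟨c, rfl⟩
  rw [← hset] at hex ⊢
  rw [hc]
  simp only [F]
  rw [dif_pos hex]
  exact hex.choose_spec.2

lemma gen_of_gen {P : Measure X} {G G' : Set (Set X)} (hG : Gen P G)
    (hm : ∀ g ∈ G', MeasurableSet g)
    (h : ∀ g ∈ G, ∃ B, MeasurableSet[generateFrom G'] B ∧ g =ᵐ[P] B) : Gen P G' := by
  refine ⟨hm, fun A hA => ?_⟩
  obtain ⟨B, hB, hAB⟩ := hG.2 A hA
  suffices ∃ B', MeasurableSet[generateFrom G'] B' ∧ B =ᵐ[P] B' by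
    obtain ⟨B', h1, h2⟩ := this
    exact ⟨B', h1, hAB.trans h2⟩
  clear hAB
  induction B, hB using generateFrom_induction with
  | hC t ht _ => exact h t ht
  | empty => exact ⟨∅, @MeasurableSet.empty _ (generateFrom G'), Filter.EventuallyEq.rfl⟩
  | compl t _ ih =>
    obtain ⟨B', h1, h2⟩ := ih
    exact ⟨B'ᶜ, h1.compl, h2.compl⟩
  | iUnion s _ ih =>
    choose B' h1 h2 using ih
    exact ⟨⋃ i, B' i, MeasurableSet.iUnion h1, Filter.EventuallyEq.countable_iUnion h2⟩

lemma measure_biInter_compl {P : Measure X} {I : Type*} [LinearOrder I] {c : I → Set X}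
    (hm : ∀ i, MeasurableSet (c i))
    (hc : ∀ i B, MeasurableSet[generateFrom (c '' Iio i)] B → 2 * P (c i ∩ B) = P B)
    [IsFiniteMeasure P] (T : Finset I) :
    2 ^ T.card * P (⋂ i ∈ T, (c i)ᶜ) = P univ := by
  classical
  induction T using Finset.induction_on_max with
  | empty => simp
  | insert a s hs ih =>
    have ha : a ∉ s := fun h => (hs a h).false
    have hB : MeasurableSet[generateFrom (c '' Iio a)] (⋂ i ∈ s, (c i)ᶜ) :=
      Finset.measurableSet_biInter s fun i hi =>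
        (measurableSet_generateFrom (mem_image_of_mem c (mem_Iio.mpr (hs i hi)))).compl
    have h1 := hc a _ hB
    have h2 := meas_split (P := P) (⋂ i ∈ s, (c i)ᶜ) (hm a)
    rw [← h1, two_mul, inter_comm] at h2
    have h3 := (ENNReal.add_right_inj (measure_ne_top _ _)).mp h2
    rw [Finset.card_insert_of_notMem ha, Finset.set_biInter_insert, pow_succ, mul_assoc,
      inter_comm, ← h3, inter_comm, h1, ih]

lemma exists_indep {P : Measure X} [IsFiniteMeasure P] {G : Set (Set X)} (hG : Gen P G)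
    (hinf : G.Infinite)
    (hmin : ∀ G' : Set (Set X), (∀ g ∈ G', MeasurableSet g) → #G' < #G →
      RelAtomless (generateFrom G') P) :
    ∃ (I : Type u) (_ : Infinite I) (_ : LinearOrder I) (c : I → Set X),
      (∀ i B, MeasurableSet[generateFrom (c '' Iio i)] B → 2 * P (c i ∩ B) = P B) ∧
      Gen P (range c) := by
  have hinf' : Infinite G := hinf.to_subtype
  have hℵ : ℵ₀ ≤ #G := aleph0_le_mk G
  let I := (#G).ord.ToType
  have hI : #I = #G := mk_ord_toType _
  have : Infinite I := infinite_iff.mpr (hI ▸ hℵ)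
  obtain ⟨e⟩ : Nonempty (I ≃ G × ℕ) := by
    rw [← Cardinal.eq, hI]
    simp [Cardinal.mul_aleph0_eq hℵ]
  obtain ⟨c, hc⟩ := exists_recursive (m := m) (I := I)
    (fun i G' c => (∀ B, MeasurableSet[generateFrom G'] B → 2 * P (c ∩ B) = P B) ∧
      ∃ S, MeasurableSet[generateFrom G'] S ∧ ((e i).1 : Set X) ∩ c = S ∩ c) (by
      rintro i _ hm ⟨c, rfl⟩
      refine exists_step (generateFrom_le hm) (hmin _ hm ?_) (hG.1 _ (e i).1.2)
      refine mk_image_le.trans_lt ?_
      exact (mk_Iio_lt i (by simp [I])).trans_eq hI)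
  refine ⟨I, inferInstance, inferInstance, c, fun i => (hc i).2.1, ?_⟩
  refine gen_of_gen hG (by rintro _ ⟨i, rfl⟩; exact (hc i).1) fun g hg => ?_
  choose S hS hSe using fun i => (hc i).2.2
  let j : ℕ → I := fun k => e.symm (⟨g, hg⟩, k)
  have hj : Function.Injective j := fun k l h => by
    simpa [j] using h
  refine ⟨⋃ k, S (j k) ∩ c (j k), MeasurableSet.iUnion fun k => ?_, ?_⟩
  · exact (generateFrom_mono (image_subset_range _ _) _ (hS (j k))).inter
      (measurableSet_generateFrom (mem_range_self _))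
  · have hnull : P (⋂ k, (c (j k))ᶜ) = 0 := by
      by_contra hne
      obtain ⟨N, hN⟩ := ENNReal.exists_nat_mul_gt hne (measure_ne_top P univ)
      have h1 := measure_biInter_compl (fun i => (hc i).1) (fun i => (hc i).2.1)
        ((Finset.range N).map ⟨j, hj⟩)
      rw [Finset.card_map, Finset.card_range] at h1
      refine hN.not_ge ?_
      rw [← h1]
      refine mul_le_mul' ?_ (measure_mono ?_)
      · exact_mod_cast (Nat.lt_two_pow_self).le
      · intro x hx
        simp only [mem_iInter] at hx ⊢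
        intro i hi
        obtain ⟨k, -, rfl⟩ := Finset.mem_map.mp hi
        exact hx k
    filter_upwards [measure_eq_zero_iff_ae_notMem.mp hnull] with x hx
    apply propext
    change x ∈ g ↔ x ∈ ⋃ k, S (j k) ∩ c (j k)
    have hk : ∀ k, g ∩ c (j k) = S (j k) ∩ c (j k) := fun k => by
      have := hSe (j k)
      simpa [j] using this
    simp only [← hk, mem_iUnion, mem_inter_iff]
    simp only [mem_iInter, mem_compl_iff, not_forall, not_not] at hx
    constructor
    · intro h
      obtain ⟨k, hk⟩ := hx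
      exact ⟨k, h, hk⟩
    · rintro ⟨k, h, -⟩
      exact h

lemma exists_atom {P : Measure X} (hP : P univ ≠ 0) {G : Set (Set X)} (hG : Gen P G)
    (hfin : G.Finite) :
    ∃ Z, MeasurableSet Z ∧ P Z ≠ 0 ∧ ∀ A, MeasurableSet A → P (A ∩ Z) = 0 ∨ P (Aᶜ ∩ Z) = 0 := by
  have : Finite G := hfin.to_subtype
  let φ : X → G → Prop := fun x g => x ∈ (g : Set X)
  obtain ⟨t, ht⟩ : ∃ t, P (φ ⁻¹' {t}) ≠ 0 := by
    by_contra hc
    push Not at hc
    apply hP
    have : (univ : Set X) = ⋃ t, φ ⁻¹' {t} := by ext x; simp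
    rw [this, measure_iUnion_null_iff]
    exact hc
  have hmeas : MeasurableSet (φ ⁻¹' {t}) := by
    have : φ ⁻¹' {t} = ⋂ g : G, {x | x ∈ (g : Set X) ↔ t g} := by
      ext x
      simp [φ, funext_iff]
    rw [this]
    refine MeasurableSet.iInter fun g => ?_
    by_cases h : t g
    · simpa [h] using hG.1 g g.2
    · have : {x | x ∈ (g : Set X) ↔ t g} = (g : Set X)ᶜ := by ext x; simp [h]
      rw [this]
      exact (hG.1 g g.2).compl
  refine ⟨_, hmeas, ht, fun A hA => ?_⟩
  obtain ⟨B, hB, hAB⟩ := hG.2 A hA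
  have hconst : ∀ x ∈ φ ⁻¹' {t}, ∀ y ∈ φ ⁻¹' {t}, x ∈ B ↔ y ∈ B := by
    intro x hx y hy
    refine forall_generateFrom_mem_iff_mem_iff.mpr (fun s hs => ?_) B hB
    have h1 : φ x = φ y := hx.trans hy.symm
    exact (congrFun h1 ⟨s, hs⟩).to_iff
  by_cases h : ∃ x ∈ φ ⁻¹' {t}, x ∈ B
  · right
    obtain ⟨x, hx, hxB⟩ := h
    rw [measure_congr (hAB.compl.inter Filter.EventuallyEq.rfl)]
    have : Bᶜ ∩ φ ⁻¹' {t} = ∅ := by
      ext y
      simp only [mem_inter_iff, mem_compl_iff, mem_empty_iff_false, iff_false, not_and]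
      exact fun h1 h2 => h1 ((hconst x hx y h2).mp hxB)
    rw [this, measure_empty]
  · left
    rw [measure_congr (hAB.inter Filter.EventuallyEq.rfl)]
    have : B ∩ φ ⁻¹' {t} = ∅ := by
      ext y
      simp only [mem_inter_iff, mem_empty_iff_false, iff_false, not_and]
      exact fun h1 h2 => h ⟨y, h2, h1⟩
    rw [this, measure_empty]

theorem maharam (μ : Measure X) {E : Set X} (hE : MeasurableSet E) (h0 : μ E ≠ 0)
    (htop : μ E ≠ ⊤) :
    ∃ Y, MeasurableSet Y ∧ Y ⊆ E ∧ μ Y ≠ 0 ∧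
      ((∀ A, MeasurableSet A → μ (A ∩ Y) = 0 ∨ μ (Aᶜ ∩ Y) = 0) ∨
        ∃ (I : Type u) (_ : Infinite I) (_ : LinearOrder I) (c : I → Set X),
          (∀ i B, MeasurableSet[generateFrom (c '' Iio i)] B →
            2 * μ.restrict Y (c i ∩ B) = μ.restrict Y B) ∧ Gen (μ.restrict Y) (range c)) := by
  obtain ⟨κ, ⟨Y, hY, hYE, hY0, G, rfl, hG⟩, hmin⟩ := Cardinal.lt_wf.has_min
    {κ : Cardinal.{u} | ∃ Y, MeasurableSet Y ∧ Y ⊆ E ∧ μ Y ≠ 0 ∧
      ∃ G : Set (Set X), #G = κ ∧ Gen (μ.restrict Y) G}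
    ⟨_, E, hE, subset_rfl, h0, {s | MeasurableSet s}, rfl, fun _ h => h, fun A hA =>
      ⟨A, measurableSet_generateFrom hA, Filter.EventuallyEq.rfl⟩⟩
  have hfinY : IsFiniteMeasure (μ.restrict Y) :=
    isFiniteMeasure_restrict.mpr (ne_top_of_le_ne_top htop (measure_mono hYE))
  rcases G.finite_or_infinite with hfin | hinf
  · obtain ⟨Z, hZ, hZ0, hZA⟩ := exists_atom (by simpa using hY0) hG hfin
    rw [Measure.restrict_apply hZ] at hZ0
    refine ⟨Z ∩ Y, hZ.inter hY, inter_subset_right.trans hYE, hZ0, Or.inl fun A hA => ?_⟩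
    have := hZA A hA
    rwa [Measure.restrict_apply (hA.inter hZ), Measure.restrict_apply (hA.compl.inter hZ),
      inter_assoc, inter_assoc] at this
  · refine ⟨Y, hY, hYE, hY0, Or.inr (exists_indep hG hinf fun G' hG' hlt A hA hA0 => ?_)⟩
    by_contra hc
    push Not at hc
    rw [Measure.restrict_apply hA] at hA0
    refine hmin _ ⟨A ∩ Y, hA.inter hY, inter_subset_right.trans hYE, hA0, G', rfl, hG',
      fun T hT => ?_⟩ hlt
    obtain ⟨B, hB, hTB⟩ := hc (T ∩ A) (hT.inter hA) inter_subset_right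
    refine ⟨B, hB, ?_⟩
    rw [← Measure.restrict_restrict hA]
    refine (ae_restrict_iff' hA).mpr ?_
    filter_upwards [hTB] with x hx hxA
    apply propext
    have h1 : x ∈ T ∩ A ↔ x ∈ A ∩ B := hx.to_iff
    change x ∈ T ↔ x ∈ B
    simp only [mem_inter_iff] at h1
    tauto

end Pool.Agent.Lib.MP_612f91_an
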