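import Mathlib

/-! Ping-pong for a free group acting on finitely supported functions, and the spectral gap. -/

namespace Pool.Agent.Lib.MP_612f91_an

open InnerProductSpace Cardinal
open scoped InnerProductSpace

universe u

lemma exists_equivariant {G Ω : Type*} [Group G] [MulAction G Ω]
    (hfree : ∀ (g : G) (x : Ω), g • x = x → g = 1) :
    ∃ κ : Ω → G, ∀ g x, κ (g • x) = g * κ x := by
  have h : ∀ x : Ω, ∃ g : G, g • (Quotient.mk (MulAction.orbitRel G Ω) x).out = x := by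
    intro x
    have : (MulAction.orbitRel G Ω) x (Quotient.mk (MulAction.orbitRel G Ω) x).out :=
      (MulAction.orbitRel G Ω).symm (Quotient.mk_out x)
    exact this
  choose κ hκ using h
  refine ⟨κ, fun g x => ?_⟩
  have h1 : Quotient.mk (MulAction.orbitRel G Ω) (g • x) = Quotient.mk (MulAction.orbitRel G Ω) x :=
    Quotient.sound ⟨g, rfl⟩
  have h2 := hκ (g • x)
  rw [h1] at h2
  have h3 : ((g * κ x)⁻¹ * κ (g • x)) • (Quotient.mk (MulAction.orbitRel G Ω) x).out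
      = (Quotient.mk (MulAction.orbitRel G Ω) x).out := by
    rw [mul_smul, h2, inv_smul_eq_iff, mul_smul, hκ x]
  exact (inv_mul_eq_one.mp (hfree _ _ h3)).symm

lemma exists_free_hom (G : Type) [Group G] [Countable G] (I : Type u) [Infinite I] :
    ∃ ρ : G →* Equiv.Perm I, ∀ g i, ρ g i = i → g = 1 := by
  obtain ⟨e⟩ : Nonempty (G × I ≃ I) := by
    rw [← Cardinal.eq, mk_prod, lift_uzero]
    refine mul_eq_right (aleph0_le_mk I) ?_ (by simp)
    exact (lift_le_aleph0.mpr mk_le_aleph0).trans (aleph0_le_mk I)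
  refine ⟨⟨⟨fun g => (e.symm.trans ((Equiv.mulLeft g).prodCongr (Equiv.refl I))).trans e, ?_⟩,
    ?_⟩, ?_⟩
  · ext i
    simp [Prod.map]
  · intro g h
    ext i
    simp [Prod.map]
  · intro g i h
    obtain ⟨⟨a, j⟩, rfl⟩ := e.surjective i
    simpa using h

lemma exists_pingpong (I : Type u) [Infinite I] :
    ∃ (σ : Fin 9 → Equiv.Perm I) (Ap Am : Fin 9 → Set (I →₀ ZMod 2)),
      Pairwise (Function.onFun Disjoint Ap) ∧ Pairwise (Function.onFun Disjoint Am) ∧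
      ∀ k φ, φ ≠ 0 → φ ∉ Am k → Finsupp.mapDomain (σ k) φ ∈ Ap k := by
  classical
  obtain ⟨ρ, hρ⟩ := exists_free_hom (FreeGroup (Fin 9)) I
  have hne : ∀ (s : Equiv.Perm I) (φ : I →₀ ZMod 2), φ ≠ 0 → Finsupp.mapDomain s φ ≠ 0 := by
    intro s φ h h0
    apply h
    apply Finsupp.mapDomain_injective s.injective
    rw [h0, Finsupp.mapDomain_zero]
  let act : MulAction (FreeGroup (Fin 9)) {φ : I →₀ ZMod 2 // φ ≠ 0} :=
    { smul := fun g φ => ⟨Finsupp.mapDomain (ρ g) φ.1, hne _ _ φ.2⟩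
      one_smul := fun φ => Subtype.ext (by
        change Finsupp.mapDomain (ρ 1) φ.1 = φ.1
        rw [map_one]
        exact Finsupp.mapDomain_id)
      mul_smul := fun g h φ => Subtype.ext (by
        change Finsupp.mapDomain (ρ (g * h)) φ.1
          = Finsupp.mapDomain (ρ g) (Finsupp.mapDomain (ρ h) φ.1)
        rw [map_mul, ← Finsupp.mapDomain_comp]
        rfl) }
  obtain ⟨κ, hκ⟩ := exists_equivariant (G := FreeGroup (Fin 9))
    (Ω := {φ : I →₀ ZMod 2 // φ ≠ 0}) (by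
      intro g φ h
      obtain ⟨i, hi⟩ := Finsupp.support_nonempty_iff.mpr φ.2
      have hmem : ∀ k : ℕ, ρ (g ^ k) i ∈ φ.1.support := by
        intro k
        have h1 : g ^ k • φ = φ := MulAction.fixedBy_subset_fixedBy_zpow _ g k h
        have h2 : Finsupp.mapDomain (ρ (g ^ k)) φ.1 = φ.1 := congrArg Subtype.val h1
        rw [← h2, Finsupp.mem_support_iff, Finsupp.mapDomain_apply (ρ (g ^ k)).injective]
        exact Finsupp.mem_support_iff.mp hi
      obtain ⟨k, l, hkl, h1⟩ := Finite.exists_ne_map_eq_of_infinite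
        (fun k : ℕ => (⟨_, hmem k⟩ : φ.1.support))
      have h2 : ρ (g ^ k) i = ρ (g ^ l) i := congrArg Subtype.val h1
      have h3 : (g ^ l)⁻¹ * g ^ k = 1 := by
        apply hρ _ i
        rw [map_mul, Equiv.Perm.mul_apply, h2, map_inv]
        simp
      have h4 : g ^ l = g ^ k := inv_mul_eq_one.mp h3
      by_contra hg
      exact hkl (IsMulTorsionFree.pow_right_injective hg h4).symm)
  have hd : ∀ b : Bool, Pairwise (Function.onFun Disjoint fun k : Fin 9 =>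
      {φ : I →₀ ZMod 2 | ∃ h : φ ≠ 0, κ ⟨φ, h⟩ ∈ FreeGroup.startsWith (k, b)}) := by
    intro b k l hkl
    rw [Function.onFun, Set.disjoint_left]
    rintro φ ⟨h, h1⟩ ⟨_, h2⟩
    exact Set.disjoint_left.mp (FreeGroup.startsWith.disjoint_iff_ne.mpr
      (fun h => hkl (congrArg Prod.fst h))) h1 h2
  refine ⟨fun k => ρ (FreeGroup.mk [(k, true)]), _, _, hd true, hd false, fun k φ h0 h => ?_⟩
  refine ⟨hne _ _ h0, ?_⟩
  have h1 := hκ (FreeGroup.mk [(k, true)]) ⟨φ, h0⟩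
  have h2 := FreeGroup.startsWith_mk_mul (w := (k, true)) (κ ⟨φ, h0⟩) fun h3 => h ⟨h0, h3⟩
  rw [← h1] at h2
  exact h2

variable {H : Type*} [NormedAddCommGroup H] [InnerProductSpace ℂ H]

lemma norm_sum_sq_of_orthogonal {ι : Type*} [Fintype ι] (v : ι → H)
    (h : Pairwise fun i j => ⟪v i, v j⟫_ℂ = 0) : ‖∑ i, v i‖ ^ 2 = ∑ i, ‖v i‖ ^ 2 := by
  classical
  have h1 : ⟪∑ i, v i, ∑ i, v i⟫_ℂ = ∑ i, ⟪v i, v i⟫_ℂ := by
    rw [sum_inner]
    refine Finset.sum_congr rfl fun i _ => ?_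
    rw [inner_sum, Finset.sum_eq_single i (fun j _ hj => h hj.symm) (by simp)]
  simp only [inner_self_eq_norm_sq_to_K] at h1
  exact_mod_cast h1

lemma gap {Ω : Type*} (w : Ω → H) (hw : Pairwise fun i j => ⟪w i, w j⟫_ℂ = 0) (S : Set Ω)
    (U : Fin 9 → H ≃ₗᵢ[ℂ] H) (σ : Fin 9 → Ω → Ω) (hU : ∀ k i, U k (w i) = w (σ k i))
    (Ap Am : Fin 9 → Set Ω) (hp : Pairwise (Function.onFun Disjoint Ap))
    (hm : Pairwise (Function.onFun Disjoint Am))
    (hσ : ∀ k, ∀ i ∈ S, i ∉ Am k → σ k i ∈ Ap k) (f : H)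
    (hf : f ∈ (Submodule.span ℂ (w '' S)).topologicalClosure) :
    ‖∑ k, U k f‖ ≤ 6 * ‖f‖ := by
  have horth : ∀ s t : Set Ω, Disjoint s t → ∀ x ∈ Submodule.span ℂ (w '' s),
      ∀ y ∈ Submodule.span ℂ (w '' t), ⟪x, y⟫_ℂ = 0 := by
    intro s t hst x hx y hy
    have : Submodule.span ℂ (w '' s) ⟂ Submodule.span ℂ (w '' t) := by
      rw [Submodule.isOrtho_span]
      rintro _ ⟨i, hi, rfl⟩ _ ⟨j, hj, rfl⟩
      exact hw (hst.ne_of_mem hi hj)
    exact this.inner_eq hx hy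
  have hcl : IsClosed {f : H | ‖∑ k, U k f‖ ≤ 6 * ‖f‖} :=
    isClosed_le (by fun_prop) (by fun_prop)
  refine closure_minimal (s := (Submodule.span ℂ (w '' S) : Set H)) ?_ hcl hf
  clear hf f
  intro f hf
  have hdec : ∀ k, ∃ d ∈ Submodule.span ℂ (w '' (S ∩ Am k)),
      ∃ e ∈ Submodule.span ℂ (w '' (S ∩ (Am k)ᶜ)), d + e = f := by
    intro k
    rw [← Submodule.mem_sup, ← Submodule.span_union, ← Set.image_union, Set.inter_union_compl]
    exact hf
  choose d hd e he hde using hdec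
  have hUe : ∀ k, U k (e k) ∈ Submodule.span ℂ (w '' Ap k) := by
    intro k
    have h1 : (Submodule.span ℂ (w '' (S ∩ (Am k)ᶜ))).map (U k).toLinearEquiv.toLinearMap
        ≤ Submodule.span ℂ (w '' Ap k) := by
      rw [Submodule.map_span, Submodule.span_le]
      rintro _ ⟨_, ⟨i, hi, rfl⟩, rfl⟩
      exact Submodule.subset_span ⟨σ k i, hσ k i hi.1 hi.2, (hU k i).symm⟩
    exact h1 (Submodule.mem_map_of_mem (he k))
  have hde0 : ∀ k, ⟪d k, e k⟫_ℂ = 0 := fun k =>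
    horth _ _ (Set.disjoint_left.mpr fun _ h1 h2 => h2.2 h1.2) _ (hd k) _ (he k)
  have hpy : ∀ k, ‖f‖ ^ 2 = ‖d k‖ ^ 2 + ‖e k‖ ^ 2 := by
    intro k
    have := norm_add_sq_eq_norm_sq_add_norm_sq_of_inner_eq_zero (𝕜 := ℂ) _ _ (hde0 k)
    rw [hde k] at this
    nlinarith
  have h1 : ‖∑ k, U k (e k)‖ ≤ 3 * ‖f‖ := by
    refine abs_le_of_sq_le_sq' ?_ (by positivity) |>.2
    rw [norm_sum_sq_of_orthogonal _ fun k l hkl => horth _ _ (hp hkl) _ (hUe k) _ (hUe l)]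
    calc ∑ k, ‖U k (e k)‖ ^ 2 ≤ ∑ _k : Fin 9, ‖f‖ ^ 2 := by
          refine Finset.sum_le_sum fun k _ => ?_
          rw [LinearIsometryEquiv.norm_map, hpy k]
          nlinarith
      _ = (3 * ‖f‖) ^ 2 := by simp; ring
  have h2 : ∑ k, ‖d k‖ ^ 2 ≤ ‖f‖ ^ 2 := by
    have h3 := norm_sum_sq_of_orthogonal d fun k l hkl => horth _ _
      ((hm hkl).mono Set.inter_subset_right Set.inter_subset_right) _ (hd k) _ (hd l)
    have h4 : ⟪∑ k, d k, f⟫_ℂ = ((∑ k, ‖d k‖ ^ 2 : ℝ) : ℂ) := by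
      rw [sum_inner]
      push_cast
      refine Finset.sum_congr rfl fun k _ => ?_
      rw [← hde k, inner_add_right, hde0 k, add_zero, inner_self_eq_norm_sq_to_K]
      rfl
    have h5 := norm_inner_le_norm (𝕜 := ℂ) (∑ k, d k) f
    rw [h4, Complex.norm_real, Real.norm_of_nonneg (by positivity), ← h3] at h5
    rw [← h3]
    rcases (norm_nonneg (∑ k, d k)).eq_or_lt with h6 | h6
    · rw [← h6]; simp
    · have : ‖∑ k, d k‖ ≤ ‖f‖ := by nlinarith
      gcongr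
  have h3 : ∑ k, ‖d k‖ ≤ 3 * ‖f‖ := by
    refine abs_le_of_sq_le_sq' ?_ (by positivity) |>.2
    refine (sq_sum_le_card_mul_sum_sq (s := Finset.univ) (f := fun k => ‖d k‖)).trans ?_
    simp only [Finset.card_univ, Fintype.card_fin]
    push_cast
    nlinarith
  have h4 : ∑ k, U k f = ∑ k, U k (d k) + ∑ k, U k (e k) := by
    rw [← Finset.sum_add_distrib]
    refine Finset.sum_congr rfl fun k _ => ?_
    rw [← map_add, hde]
  change ‖∑ k, U k f‖ ≤ 6 * ‖f‖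
  rw [h4]
  refine (norm_add_le _ _).trans ?_
  have h5 : ‖∑ k, U k (d k)‖ ≤ ∑ k, ‖d k‖ := (norm_sum_le _ _).trans (by simp)
  linarith

lemma rankOne_mem [CompleteSpace H] (A : StarSubalgebra ℂ (H →L[ℂ] H))
    (hA : IsClosed (A : Set (H →L[ℂ] H))) {T Q : H →L[ℂ] H} (hT : T ∈ A) (hQ : Q ∈ A) {ξ : H}
    (K₀ : Submodule ℂ H) (hξ : T ξ = ξ) (hK : ∀ f ∈ K₀, T f ∈ K₀) {r : ℝ} (hr0 : 0 ≤ r)
    (hr : r < 1) (hn : ∀ f ∈ K₀, ‖T f‖ ≤ r * ‖f‖)
    (hQf : ∀ f, (Q - rankOne ℂ ξ ξ) f ∈ K₀) : rankOne ℂ ξ ξ ∈ A := by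
  have h1 : ∀ n : ℕ, ∀ f ∈ K₀, (T ^ n) f ∈ K₀ ∧ ‖(T ^ n) f‖ ≤ r ^ n * ‖f‖ := by
    intro n f hf
    induction n with
    | zero => simpa using hf
    | succ n ih =>
      rw [pow_succ', mul_apply_eq_comp]
      refine ⟨hK _ ih.1, (hn _ ih.1).trans ?_⟩
      rw [pow_succ', mul_assoc]
      exact mul_le_mul_of_nonneg_left ih.2 hr0
  have h2 : ∀ n : ℕ, (T ^ n) ξ = ξ := by
    intro n
    induction n with
    | zero => simp
    | succ n ih => rw [pow_succ', mul_apply_eq_comp, ih, hξ]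
  have h3 : ∀ n : ℕ, ‖T ^ n * Q - rankOne ℂ ξ ξ‖ ≤ r ^ n * ‖Q - rankOne ℂ ξ ξ‖ := by
    intro n
    refine ContinuousLinearMap.opNorm_le_bound _ (by positivity) fun f => ?_
    have h4 : (T ^ n * Q - rankOne ℂ ξ ξ) f = (T ^ n) ((Q - rankOne ℂ ξ ξ) f) := by
      rw [sub_apply, sub_apply, map_sub, rankOne_apply,
        map_smul, h2, mul_apply_eq_comp]
    rw [h4, mul_assoc]
    exact (h1 n _ (hQf f)).2.trans
      (mul_le_mul_of_nonneg_left (ContinuousLinearMap.le_opNorm _ _) (by positivity))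
  refine hA.mem_of_tendsto (f := fun n : ℕ => T ^ n * Q) (b := Filter.atTop) ?_
    (Filter.Eventually.of_forall fun n => mul_mem (pow_mem hT n) hQ)
  rw [tendsto_iff_norm_sub_tendsto_zero]
  refine squeeze_zero (fun _ => norm_nonneg _) h3 ?_
  simpa using (tendsto_pow_atTop_nhds_zero_of_lt_one hr0 hr).mul_const ‖Q - rankOne ℂ ξ ξ‖

end Pool.Agent.Lib.MP_612f91_an
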