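import Mathlib

/-! Star isomorphisms between operator algebras with enough rank one projections are spatial. -/

namespace Pool.Agent.Lib.MP_612f91_an

open InnerProductSpace
open scoped InnerProductSpace

variable {H K : Type*} [NormedAddCommGroup H] [InnerProductSpace ℂ H] [CompleteSpace H]
  [NormedAddCommGroup K] [InnerProductSpace ℂ K] [CompleteSpace K]

/-- two total families with the same Gram matrix differ by a unitary -/
lemma exists_unitary_of_gram {ι : Type*} (v : ι → H) (w : ι → K)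
    (hv : (Submodule.span ℂ (Set.range v)).topologicalClosure = ⊤)
    (hw : (Submodule.span ℂ (Set.range w)).topologicalClosure = ⊤)
    (h : ∀ i j, ⟪v i, v j⟫_ℂ = ⟪w i, w j⟫_ℂ) :
    ∃ u : H ≃ₗᵢ[ℂ] K, ∀ i, u (v i) = w i := by
  classical
  have hd1 : DenseRange (Finsupp.linearCombination ℂ v) := by
    rw [DenseRange, ← LinearMap.coe_range, Finsupp.range_linearCombination]
    exact Submodule.dense_iff_topologicalClosure_eq_top.mpr hv
  have hd2 : DenseRange (Finsupp.linearCombination ℂ w) := by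
    rw [DenseRange, ← LinearMap.coe_range, Finsupp.range_linearCombination]
    exact Submodule.dense_iff_topologicalClosure_eq_top.mpr hw
  have hn : ∀ x : ι →₀ ℂ, ‖Finsupp.linearCombination ℂ w ((LinearEquiv.refl ℂ (ι →₀ ℂ)) x)‖
      = ‖Finsupp.linearCombination ℂ v x‖ := by
    intro x
    rw [norm_eq_sqrt_re_inner (𝕜 := ℂ), norm_eq_sqrt_re_inner (𝕜 := ℂ)]
    simp only [LinearEquiv.refl_apply, Finsupp.linearCombination_apply, Finsupp.sum,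
      sum_inner, inner_sum, inner_smul_left, inner_smul_right, h]
  refine ⟨(LinearEquiv.refl ℂ (ι →₀ ℂ)).extendOfIsometry _ _ hd1 hd2 hn, fun i => ?_⟩
  have := (LinearEquiv.refl ℂ (ι →₀ ℂ)).extendOfIsometry_eq _ _ hd1 hd2 hn (Finsupp.single i 1)
  simpa using this

/-- unit vectors whose rank one projection lies in `A` -/
def R (A : StarSubalgebra ℂ (H →L[ℂ] H)) : Set H := {ξ | ‖ξ‖ = 1 ∧ rankOne ℂ ξ ξ ∈ A}

/-- the rank one projections of `A` have total range -/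
def Total (A : StarSubalgebra ℂ (H →L[ℂ] H)) : Prop :=
  ∀ f : H, f ≠ 0 → ∃ ξ ∈ R A, ⟪ξ, f⟫_ℂ ≠ 0

omit [CompleteSpace H] in
lemma rankOne_mul_mul (a : H →L[ℂ] H) (ξ ζ : H) :
    rankOne ℂ ξ ξ * a * rankOne ℂ ζ ζ = ⟪ξ, a ζ⟫_ℂ • rankOne ℂ ξ ζ := by
  ext f
  simp [smul_smul, mul_comm]

lemma map_rankOne {A : StarSubalgebra ℂ (H →L[ℂ] H)} {B : StarSubalgebra ℂ (K →L[ℂ] K)}
    (hB : Total B) (Φ : A ≃⋆ₐ[ℂ] B) {ξ : H} (hξ : ξ ∈ R A) :
    ∃ η ∈ R B, (Φ ⟨rankOne ℂ ξ ξ, hξ.2⟩ : K →L[ℂ] K) = rankOne ℂ η η := by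
  set e : A := ⟨rankOne ℂ ξ ξ, hξ.2⟩ with he
  have hξ0 : ξ ≠ 0 := by
    intro h; have := hξ.1; simp [h] at this
  have he0 : e ≠ 0 := fun h => rankOne_ne_zero (𝕜 := ℂ) hξ0 hξ0 (congrArg Subtype.val h)
  have hes : star e = e := by
    apply Subtype.ext
    simp [he, ContinuousLinearMap.star_eq_adjoint]
  have hee : e * e = e := Subtype.ext (isIdempotentElem_rankOne_self hξ.1)
  have hmin : ∀ a : A, e * a * e = ⟪ξ, (a : H →L[ℂ] H) ξ⟫_ℂ • e := fun a =>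
    Subtype.ext (rankOne_mul_mul _ _ _)
  set p : K →L[ℂ] K := (Φ e : K →L[ℂ] K) with hp
  have hp0 : p ≠ 0 := by
    intro h
    apply he0
    apply Φ.injective
    rw [map_zero]
    exact Subtype.ext h
  have hps : ContinuousLinearMap.adjoint p = p := by
    rw [← ContinuousLinearMap.star_eq_adjoint]
    have : star (Φ e) = Φ e := by rw [← map_star, hes]
    exact congrArg Subtype.val this
  have hpp : ∀ f, p (p f) = p f := by
    intro f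
    have : Φ e * Φ e = Φ e := by rw [← map_mul, hee]
    exact congrFun (congrArg (fun x : B => ((x : K →L[ℂ] K) : K → K)) this) f
  have hpi : ∀ f g, ⟪p f, g⟫_ℂ = ⟪f, p g⟫_ℂ := by
    intro f g
    rw [← ContinuousLinearMap.adjoint_inner_right, hps]
  obtain ⟨f, hf⟩ : ∃ f, p f ≠ 0 := by
    by_contra hc
    push Not at hc
    exact hp0 (ContinuousLinearMap.ext hc)
  obtain ⟨ζ, hζ, hζf⟩ := hB _ hf
  have hpζ : p ζ ≠ 0 := by
    intro h
    rw [← hpi, h, inner_zero_left] at hζf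
    exact hζf rfl
  obtain ⟨c, hc⟩ : ∃ c : ℂ, ∀ g, ⟪p ζ, g⟫_ℂ • p ζ = c • p g := by
    obtain ⟨a, ha⟩ : ∃ a, Φ a = ⟨rankOne ℂ ζ ζ, hζ.2⟩ := Φ.surjective _
    refine ⟨⟪ξ, (a : H →L[ℂ] H) ξ⟫_ℂ, fun g => ?_⟩
    have h1 := congrArg Φ (hmin a)
    rw [map_mul, map_mul, map_smul, ha] at h1
    have h2 := congrFun (congrArg (fun x : B => ((x : K →L[ℂ] K) : K → K)) h1) g
    simp only [MulMemClass.coe_mul, ContinuousLinearMap.mul_apply, rankOne_apply, map_smul,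
      SetLike.val_smul, ContinuousLinearMap.smul_apply] at h2
    rw [hpi]
    exact h2
  have hn : (‖p ζ‖ : ℂ) ≠ 0 := by simpa using hpζ
  have hc2 : c = (‖p ζ‖ : ℂ) ^ 2 := by
    have h1 := hc (p ζ)
    rw [hpp, inner_self_eq_norm_sq_to_K] at h1
    exact (smul_left_injective ℂ hpζ h1).symm
  have hfin : p = rankOne ℂ ((‖p ζ‖ : ℂ)⁻¹ • p ζ) ((‖p ζ‖ : ℂ)⁻¹ • p ζ) := by
    ext g
    have h1 := hc g
    rw [hc2] at h1
    simp only [rankOne_apply, inner_smul_left, map_inv₀, Complex.conj_ofReal, smul_smul]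
    rw [show (‖p ζ‖ : ℂ)⁻¹ * ⟪p ζ, g⟫_ℂ * (‖p ζ‖ : ℂ)⁻¹
      = ((‖p ζ‖ : ℂ) ^ 2)⁻¹ * ⟪p ζ, g⟫_ℂ by ring, ← smul_smul, h1, smul_smul,
      inv_mul_cancel₀ (pow_ne_zero _ hn), one_smul]
  refine ⟨(‖p ζ‖ : ℂ)⁻¹ • p ζ, ⟨?_, ?_⟩, hfin⟩
  · rw [norm_smul]
    simp [norm_ne_zero_iff.mpr hpζ]
  · rw [← hfin]
    exact (Φ e).2

lemma top_of_total {A : StarSubalgebra ℂ (H →L[ℂ] H)} (hA : Total A) (S : Submodule ℂ H)
    (h : R A ⊆ S) : S.topologicalClosure = ⊤ := by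
  rw [Submodule.topologicalClosure_eq_top_iff, Submodule.eq_bot_iff]
  intro f hf
  by_contra h0
  obtain ⟨ξ, hξ, h1⟩ := hA f h0
  exact h1 (hf ξ (h hξ))

lemma exists_maximal_family (A : StarSubalgebra ℂ (H →L[ℂ] H)) :
    ∃ I ⊆ R A, (I.Pairwise fun ξ ζ => ∀ a ∈ A, ⟪ξ, a ζ⟫_ℂ = 0) ∧
      ∀ ξ ∈ R A, ∃ ζ ∈ I, ∃ a ∈ A, ⟪ξ, a ζ⟫_ℂ ≠ 0 := by
  obtain ⟨I, hI⟩ := zorn_subset
    {I : Set H | I ⊆ R A ∧ I.Pairwise fun ξ ζ => ∀ a ∈ A, ⟪ξ, a ζ⟫_ℂ = 0} (by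
      intro c hc hch
      refine ⟨⋃₀ c, ⟨Set.sUnion_subset fun s hs => (hc hs).1, ?_⟩, fun s hs =>
        Set.subset_sUnion_of_mem hs⟩
      rw [Set.pairwise_sUnion hch.directedOn]
      exact fun s hs => (hc hs).2)
  refine ⟨I, hI.prop.1, hI.prop.2, fun ξ hξ => ?_⟩
  by_contra hc
  push Not at hc
  have hins : insert ξ I ∈
      {I : Set H | I ⊆ R A ∧ I.Pairwise fun ξ ζ => ∀ a ∈ A, ⟪ξ, a ζ⟫_ℂ = 0} := by
    refine ⟨Set.insert_subset hξ hI.prop.1, ?_⟩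
    rw [Set.pairwise_insert]
    refine ⟨hI.prop.2, fun ζ hζ _ => ⟨hc ζ hζ, fun a ha => ?_⟩⟩
    have h1 := hc ζ hζ (star a) (star_mem ha)
    rw [ContinuousLinearMap.star_eq_adjoint, ContinuousLinearMap.adjoint_inner_right] at h1
    rw [← inner_conj_symm, h1, map_zero]
  have hmem : ξ ∈ I := hI.le_of_ge hins (Set.subset_insert _ _) (Set.mem_insert _ _)
  have h1 := hc ξ hmem 1 (one_mem A)
  simp only [one_apply_eq_self, inner_self_eq_zero] at h1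
  have := hξ.1
  simp [h1] at this

theorem spatial {A : StarSubalgebra ℂ (H →L[ℂ] H)} {B : StarSubalgebra ℂ (K →L[ℂ] K)}
    (hA : Total A) (hB : Total B) (Φ : A ≃⋆ₐ[ℂ] B) :
    ∃ u : H ≃ₗᵢ[ℂ] K, ∀ (a : A) (f : H),
      (Φ a : K →L[ℂ] K) (u f) = u ((a : H →L[ℂ] H) f) := by
  classical
  obtain ⟨I, hIR, hIp, hIm⟩ := exists_maximal_family A
  choose η hη hηe using fun ξ : I => map_rankOne hB Φ (hIR ξ.2)
  have hη0 : ∀ i, η i ≠ 0 := fun i h => by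
    have := (hη i).1
    simp [h] at this
  let e : I → A := fun i => ⟨rankOne ℂ (i : H) (i : H), (hIR i.2).2⟩
  have key : ∀ (i j : I) (a : A), (Φ (e i * a * e j) : K →L[ℂ] K)
      = ⟪η i, (Φ a : K →L[ℂ] K) (η j)⟫_ℂ • rankOne ℂ (η i) (η j) := by
    intro i j a
    rw [map_mul, map_mul, MulMemClass.coe_mul, MulMemClass.coe_mul, hηe, hηe, rankOne_mul_mul]
  have hin : ∀ (i j : I) (a : A),
      ⟪(i : H), (a : H →L[ℂ] H) j⟫_ℂ = ⟪η i, (Φ a : K →L[ℂ] K) (η j)⟫_ℂ := by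
    intro i j a
    have h1 := key i j a
    by_cases hij : i = j
    · subst hij
      have h2 : e i * a * e i = ⟪(i : H), (a : H →L[ℂ] H) i⟫_ℂ • e i :=
        Subtype.ext (rankOne_mul_mul _ _ _)
      rw [h2, map_smul, SetLike.val_smul, hηe] at h1
      exact smul_left_injective ℂ (rankOne_ne_zero (hη0 i) (hη0 i)) h1
    · have h3 := hIp i.2 j.2 (fun h => hij (Subtype.ext h)) a a.2
      have h2 : e i * a * e j = 0 := by
        apply Subtype.ext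
        rw [MulMemClass.coe_mul, MulMemClass.coe_mul, rankOne_mul_mul, h3, zero_smul]
        rfl
      rw [h2, map_zero] at h1
      rw [h3]
      rcases smul_eq_zero.mp h1.symm with h | h
      · exact h.symm
      · exact absurd h (rankOne_ne_zero (hη0 i) (hη0 j))
  let v : I × A → H := fun x => (x.2 : H →L[ℂ] H) x.1
  let w : I × A → K := fun x => (Φ x.2 : K →L[ℂ] K) (η x.1)
  have hv : (Submodule.span ℂ (Set.range v)).topologicalClosure = ⊤ := by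
    refine top_of_total hA _ fun ξ hξ => ?_
    obtain ⟨ζ, hζ, a, ha, h⟩ := hIm ξ hξ
    have h1 : v (⟨ζ, hζ⟩, ⟨rankOne ℂ ξ ξ, hξ.2⟩ * ⟨a, ha⟩) = ⟪ξ, a ζ⟫_ℂ • ξ := rfl
    have h2 : ξ = (⟪ξ, a ζ⟫_ℂ)⁻¹ • v (⟨ζ, hζ⟩, ⟨rankOne ℂ ξ ξ, hξ.2⟩ * ⟨a, ha⟩) := by
      rw [h1, smul_smul, inv_mul_cancel₀ h, one_smul]
    rw [h2]
    exact Submodule.smul_mem _ _ (Submodule.subset_span ⟨_, rfl⟩)
  have hw : (Submodule.span ℂ (Set.range w)).topologicalClosure = ⊤ := by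
    refine top_of_total hB _ fun θ hθ => ?_
    obtain ⟨ξ, hξ, hξe⟩ := map_rankOne hA Φ.symm hθ
    have hΦ : Φ ⟨rankOne ℂ ξ ξ, hξ.2⟩ = ⟨rankOne ℂ θ θ, hθ.2⟩ := by
      rw [← Φ.apply_symm_apply ⟨rankOne ℂ θ θ, hθ.2⟩]
      congr 1
      exact Subtype.ext hξe.symm
    obtain ⟨ζ, hζ, a, ha, h⟩ := hIm ξ hξ
    have hξ0 : ξ ≠ 0 := fun h => by
      have := hξ.1
      simp [h] at this
    have hζ0 : ζ ≠ 0 := fun h => by
      have := (hIR hζ).1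
      simp [h] at this
    have h0 : ⟪θ, (Φ ⟨a, ha⟩ : K →L[ℂ] K) (η ⟨ζ, hζ⟩)⟫_ℂ ≠ 0 := by
      intro h0
      have h1 : Φ (⟨rankOne ℂ ξ ξ, hξ.2⟩ * ⟨a, ha⟩ * e ⟨ζ, hζ⟩) = 0 := by
        apply Subtype.ext
        rw [map_mul, map_mul, MulMemClass.coe_mul, MulMemClass.coe_mul, hηe, hΦ, rankOne_mul_mul,
          h0, zero_smul]
        rfl
      have h2 := congrArg Subtype.val ((map_eq_zero_iff Φ Φ.injective).mp h1)
      rw [MulMemClass.coe_mul, MulMemClass.coe_mul, rankOne_mul_mul] at h2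
      rcases smul_eq_zero.mp h2 with h3 | h3
      · exact h h3
      · exact rankOne_ne_zero hξ0 hζ0 h3
    have h1 : w (⟨ζ, hζ⟩, ⟨rankOne ℂ ξ ξ, hξ.2⟩ * ⟨a, ha⟩)
        = ⟪θ, (Φ ⟨a, ha⟩ : K →L[ℂ] K) (η ⟨ζ, hζ⟩)⟫_ℂ • θ := by
      simp only [w, map_mul, hΦ]
      rfl
    have h2 : θ = (⟪θ, (Φ ⟨a, ha⟩ : K →L[ℂ] K) (η ⟨ζ, hζ⟩)⟫_ℂ)⁻¹ •
        w (⟨ζ, hζ⟩, ⟨rankOne ℂ ξ ξ, hξ.2⟩ * ⟨a, ha⟩) := by
      rw [h1, smul_smul, inv_mul_cancel₀ h0, one_smul]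
    rw [h2]
    exact Submodule.smul_mem _ _ (Submodule.subset_span ⟨_, rfl⟩)
  obtain ⟨u, hu⟩ := exists_unitary_of_gram v w hv hw (by
    rintro ⟨i, a⟩ ⟨j, b⟩
    have h1 := hin i j (star a * b)
    rw [map_mul, map_star] at h1
    simp only [MulMemClass.coe_mul, StarMemClass.coe_star, ContinuousLinearMap.mul_apply,
      ContinuousLinearMap.star_eq_adjoint, ContinuousLinearMap.adjoint_inner_right] at h1
    exact h1)
  refine ⟨u, fun a f => ?_⟩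
  have : (Φ a : K →L[ℂ] K) ∘L (u : H →L[ℂ] K) = (u : H →L[ℂ] K) ∘L (a : H →L[ℂ] H) := by
    refine ContinuousLinearMap.ext_on
      (Submodule.dense_iff_topologicalClosure_eq_top.mpr hv) ?_
    rintro _ ⟨⟨i, b⟩, rfl⟩
    have h1 := hu (i, b)
    have h2 := hu (i, a * b)
    simp only [v, w, map_mul] at h1 h2
    simp only [ContinuousLinearMap.comp_apply, LinearIsometryEquiv.coe_coe'', v, h1]
    exact h2.symm
  exact congrFun (congrArg (fun x : H →L[ℂ] K => (x : H → K)) this) f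

end Pool.Agent.Lib.MP_612f91_an
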