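import Mathlib
import Pool.Agent.Lib.MP_612f91_an.Proj
import Pool.Agent.Lib.MP_612f91_an.RelAtomless

/-! Walsh functions of an independent family of sets. -/

namespace Pool.Agent.Lib.MP_612f91_an

open MeasureTheory Set Filter MeasurableSpace
open scoped ENNReal NNReal InnerProductSpace Topology

section Sets

variable {X I : Type*}

open Classical in
/-- the set where the Walsh function of `φ` equals one -/
def D (c : I → Set X) (φ : I →₀ ZMod 2) : Set X :=
  {x | Finsupp.linearCombination (ZMod 2) (fun i => if x ∈ c i then (0 : ZMod 2) else 1) φ = 0}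

lemma D_zero (c : I → Set X) : D c 0 = univ := by
  ext x; simp [D]

lemma D_single (c : I → Set X) (i : I) : D c (Finsupp.single i 1) = c i := by
  ext x; simp [D]

lemma D_add (c : I → Set X) (φ ψ : I →₀ ZMod 2) :
    D c (φ + ψ) = (D c φ ∩ D c ψ) ∪ ((D c φ)ᶜ ∩ (D c ψ)ᶜ) := by
  have h : ∀ a b : ZMod 2, a + b = 0 ↔ (a = 0 ∧ b = 0) ∨ (¬ a = 0 ∧ ¬ b = 0) := by decide
  ext x
  simp only [D, map_add, mem_ofPred_eq, mem_union, mem_inter_iff, mem_compl_iff, h]

lemma measurableSet_D {n : MeasurableSpace X} (c : I → Set X) (φ : I →₀ ZMod 2)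
    (h : ∀ i ∈ φ.support, MeasurableSet (c i)) : MeasurableSet (D c φ) := by
  classical
  induction φ using Finsupp.induction with
  | zero => rw [D_zero]; exact MeasurableSet.univ
  | single_add a b f ha hb ih =>
    have hb1 : b = 1 := (by decide : ∀ b : ZMod 2, b ≠ 0 → b = 1) b hb
    subst hb1
    have hfa : f a = 0 := Finsupp.notMem_support_iff.mp ha
    have h1 : MeasurableSet (c a) := h a (by simp [hfa])
    have h2 : MeasurableSet (D c f) := ih fun i hi => h i (by
      have hia : a ≠ i := fun h => ha (h ▸ hi)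
      simpa [hia] using hi)
    rw [D_add, D_single]
    exact (h1.inter h2).union (h1.compl.inter h2.compl)

lemma measure_D {m : MeasurableSpace X} {P : Measure X} [IsFiniteMeasure P] [LinearOrder I]
    {c : I → Set X} (hm : ∀ i, MeasurableSet (c i))
    (hc : ∀ i B, MeasurableSet[generateFrom (c '' Iio i)] B → 2 * P (c i ∩ B) = P B)
    (φ : I →₀ ZMod 2) (hφ : φ ≠ 0) : 2 * P (D c φ) = P univ := by
  induction φ using Finsupp.induction_on_max with
  | zero => exact absurd rfl hφ
  | single_add a b f ha hb _ =>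
    have hb1 : b = 1 := (by decide : ∀ b : ZMod 2, b ≠ 0 → b = 1) b hb
    subst hb1
    have hD : MeasurableSet[generateFrom (c '' Iio a)] (D c f) :=
      measurableSet_D c f fun i hi =>
        measurableSet_generateFrom (mem_image_of_mem c (mem_Iio.mpr (ha i hi)))
    have hDm : MeasurableSet (D c f) := measurableSet_D c f fun i _ => hm i
    have h1 := hc a _ hD
    have h2 := hc a _ hD.compl
    have h3 := meas_split (P := P) (D c f)ᶜ (hm a)
    rw [← h2, two_mul, inter_comm] at h3
    have h4 := (ENNReal.add_right_inj (measure_ne_top _ _)).mp h3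
    rw [D_add, D_single, measure_union _ ((hm a).compl.inter hDm.compl), mul_add, h1,
      inter_comm (c a)ᶜ, ← h4, inter_comm, h2, measure_add_measure_compl hDm]
    exact disjoint_left.mpr fun x hx hx' => hx'.1 hx.1

lemma add_eq_zero_iff_eq (φ ψ : I →₀ ZMod 2) : φ + ψ = 0 ↔ φ = ψ := by
  have h : ∀ a b : ZMod 2, a + b = 0 ↔ a = b := by decide
  simp [Finsupp.ext_iff, h]

end Sets

variable {X : Type*} [MeasurableSpace X] {μ : Measure X} {A B : Set X}

/-- multiplication by the function that is `1` on `A` and `-1` off `A` -/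
noncomputable def rf (μ : Measure X) (A : Set X) (hA : MeasurableSet A) :
    Lp ℂ 2 μ →L[ℂ] Lp ℂ 2 μ := (2 : ℂ) • proj μ A hA - 1

lemma rf_apply (hA : MeasurableSet A) (f : Lp ℂ 2 μ) :
    rf μ A hA f = (2 : ℂ) • proj μ A hA f - f := rfl

lemma rf_congr (hA : MeasurableSet A) (hB : MeasurableSet B) (h : A = B) :
    rf μ A hA = rf μ B hB := by subst h; rfl

lemma proj_eq_rf (hA : MeasurableSet A) (f : Lp ℂ 2 μ) :
    proj μ A hA f = (2⁻¹ : ℂ) • (rf μ A hA f + f) := by
  rw [rf_apply, sub_add_cancel, smul_smul]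
  simp

lemma proj_union_disjoint (hA : MeasurableSet A) (hB : MeasurableSet B) (h : Disjoint A B)
    (f : Lp ℂ 2 μ) :
    proj μ (A ∪ B) (hA.union hB) f = proj μ A hA f + proj μ B hB f := by
  apply Lp.ext
  filter_upwards [coeFn_proj (hA.union hB) f, coeFn_proj hA f, coeFn_proj hB f,
    Lp.coeFn_add (proj μ A hA f) (proj μ B hB f)] with x h1 h2 h3 h4
  rw [h1, h4, Pi.add_apply, h2, h3, indicator_union_of_disjoint h]

lemma rf_rf (hA : MeasurableSet A) (hB : MeasurableSet B) (f : Lp ℂ 2 μ) :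
    rf μ A hA (rf μ B hB f) = rf μ ((A ∩ B) ∪ (Aᶜ ∩ Bᶜ))
      ((hA.inter hB).union (hA.compl.inter hB.compl)) f := by
  rw [rf_apply, rf_apply, rf_apply, proj_union_disjoint (hA.inter hB) (hA.compl.inter hB.compl)
    (disjoint_left.mpr fun x hx hx' => hx'.1 hx.1), ← proj_proj hA.compl hB.compl, proj_compl hA,
    proj_compl hB, map_sub, map_sub, map_smul, ← proj_proj hA hB]
  module

lemma inner_rf_left (hA : MeasurableSet A) (g f : Lp ℂ 2 μ) :
    ⟪rf μ A hA g, f⟫_ℂ = ⟪g, rf μ A hA f⟫_ℂ := by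
  rw [rf_apply, rf_apply, inner_sub_left, inner_sub_right, inner_smul_left, inner_smul_right,
    inner_proj_left]
  simp [Complex.conj_ofNat]

lemma proj_rf (hA : MeasurableSet A) (hB : MeasurableSet B) (f : Lp ℂ 2 μ) :
    proj μ A hA (rf μ B hB f) = rf μ B hB (proj μ A hA f) := by
  rw [rf_apply, rf_apply, map_sub, map_smul, proj_proj, proj_proj, proj_congr _ _ (inter_comm A B)]

end Pool.Agent.Lib.MP_612f91_an
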