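import Mathlib
import Pool.Agent.Lib.MP_612f91_an.Algebra
import Pool.Agent.Lib.MP_612f91_an.Walsh
import Pool.Agent.Lib.MP_612f91_an.Maharam
import Pool.Agent.Lib.MP_612f91_an.PingPong
import Pool.Agent.Lib.MP_612f91_an.Spatial

/-! The rank one projections in the support expansion algebra have total range. -/

namespace Pool.Agent.Lib.MP_612f91_an

open MeasureTheory Set Filter MeasurableSpace InnerProductSpace
open scoped ENNReal NNReal InnerProductSpace Topology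

universe u

lemma maps_closure {H ι : Type*} [NormedAddCommGroup H] [NormedSpace ℂ H] (w : ι → H) (S : Set ι)
    (L : H →L[ℂ] H) (K' : Submodule ℂ H) (hK' : IsClosed (K' : Set H))
    (h : ∀ i ∈ S, L (w i) ∈ K') {f : H}
    (hf : f ∈ (Submodule.span ℂ (w '' S)).topologicalClosure) : L f ∈ K' := by
  have : (Submodule.span ℂ (w '' S)).topologicalClosure ≤ K'.comap (L : H →ₗ[ℂ] H) := by
    refine Submodule.topologicalClosure_minimal _ ?_ (hK'.preimage L.continuous)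
    rw [Submodule.span_le]
    rintro _ ⟨i, hi, rfl⟩
    exact h i hi
  exact this hf

lemma ext_closure {H ι : Type*} [NormedAddCommGroup H] [NormedSpace ℂ H] (w : ι → H) (S : Set ι)
    (L L' : H →L[ℂ] H) (h : ∀ i ∈ S, L (w i) = L' (w i)) {f : H}
    (hf : f ∈ (Submodule.span ℂ (w '' S)).topologicalClosure) : L f = L' f := by
  have := maps_closure w S (L - L') ⊥ (by simp) (fun i hi => by simp [h i hi]) hf
  simpa [sub_eq_zero] using this

lemma rankOne_mem_of_pingpong {H Ω : Type*} [NormedAddCommGroup H] [InnerProductSpace ℂ H]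
    [CompleteSpace H] (A : StarSubalgebra ℂ (H →L[ℂ] H)) (hA : IsClosed (A : Set (H →L[ℂ] H)))
    (w : Ω → H) (hw : Pairwise fun i j => ⟪w i, w j⟫_ℂ = 0) (o : Ω) (ho : w o ≠ 0)
    (U : Fin 9 → H ≃ₗᵢ[ℂ] H) (σ : Fin 9 → Ω → Ω) (hU : ∀ k i, U k (w i) = w (σ k i))
    (hσo : ∀ k, σ k o = o) (hσo' : ∀ k i, i ≠ o → σ k i ≠ o)
    (Ap Am : Fin 9 → Set Ω) (hp : Pairwise (Function.onFun Disjoint Ap))
    (hm : Pairwise (Function.onFun Disjoint Am))
    (hσ : ∀ k i, i ≠ o → i ∉ Am k → σ k i ∈ Ap k) (hUA : ∀ k, (U k : H →L[ℂ] H) ∈ A)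
    {Q : H →L[ℂ] H} (hQ : Q ∈ A)
    (hQK : ∀ f, Q f ∈ (Submodule.span ℂ (w '' univ)).topologicalClosure)
    (hQo : ∀ f, ⟪w o, Q f⟫_ℂ = ⟪w o, f⟫_ℂ) : rankOne ℂ (w o) (w o) ∈ A := by
  have hn : (‖w o‖ : ℂ) ≠ 0 := by simpa using ho
  set ξ : H := (‖w o‖ : ℂ)⁻¹ • w o with hξ
  have hr : ∀ f, rankOne ℂ ξ ξ f = (((‖w o‖ : ℂ) ^ 2)⁻¹ * ⟪w o, f⟫_ℂ) • w o := by
    intro f
    rw [rankOne_apply, hξ, inner_smul_left, smul_smul]
    congr 1
    simp only [map_inv₀, Complex.conj_ofReal]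
    ring
  have h1 : rankOne ℂ (w o) (w o) = ((‖w o‖ : ℂ) ^ 2) • rankOne ℂ ξ ξ := by
    ext f
    rw [smul_apply, hr, smul_smul, ← mul_assoc, mul_inv_cancel₀ (pow_ne_zero _ hn), one_mul,
      rankOne_apply]
  rw [h1]
  refine SMulMemClass.smul_mem _ ?_
  have hcl := Submodule.isClosed_topologicalClosure (Submodule.span ℂ (w '' {i | i ≠ o}))
  have hmem : ∀ i, i ≠ o → w i ∈ (Submodule.span ℂ (w '' {i | i ≠ o})).topologicalClosure :=
    fun i hi => Submodule.le_topologicalClosure _ (Submodule.subset_span ⟨i, hi, rfl⟩)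
  have hT : ∀ f, ((9⁻¹ : ℂ) • ∑ k, (U k : H →L[ℂ] H)) f = (9⁻¹ : ℂ) • ∑ k, U k f := by
    intro f
    simp
  refine rankOne_mem A hA (T := (9⁻¹ : ℂ) • ∑ k, (U k : H →L[ℂ] H))
    (SMulMemClass.smul_mem _ (sum_mem fun k _ => hUA k)) hQ
    (Submodule.span ℂ (w '' {i | i ≠ o})).topologicalClosure ?_ (fun f hf => ?_) (r := 2 / 3)
    (by norm_num) (by norm_num) (fun f hf => ?_) fun f => ?_
  · rw [hT]
    simp only [hξ, map_smul, hU, hσo, Finset.sum_const, Finset.card_univ, Fintype.card_fin]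
    rw [← Nat.cast_smul_eq_nsmul ℂ, smul_smul]
    norm_num
  · refine maps_closure w _ _ _ hcl (fun i hi => ?_) hf
    rw [hT]
    refine Submodule.smul_mem _ _ (sum_mem fun k _ => ?_)
    rw [hU]
    exact hmem _ (hσo' k i hi)
  · rw [hT, norm_smul]
    have := gap w hw {i | i ≠ o} U σ hU Ap Am hp hm hσ f hf
    norm_num
    linarith
  · have h2 : (Q - rankOne ℂ ξ ξ) f = (1 - rankOne ℂ ξ ξ) (Q f) := by
      rw [sub_apply, sub_apply, hr, hr, hQo]
      rfl
    rw [h2]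
    refine maps_closure w univ _ _ hcl (fun i _ => ?_) (hQK f)
    rw [sub_apply, hr]
    by_cases hi : i = o
    · subst hi
      rw [inner_self_eq_norm_sq_to_K]
      simp [inv_mul_cancel₀ (pow_ne_zero 2 hn)]
    · rw [hw (Ne.symm hi)]
      simpa using hmem i hi

lemma inner_eq_zero_of_rankOne_mem {H : Type*} [NormedAddCommGroup H] [InnerProductSpace ℂ H]
    [CompleteSpace H] (A : StarSubalgebra ℂ (H →L[ℂ] H)) {f z : H}
    (h : ∀ ξ ∈ R A, ⟪ξ, f⟫_ℂ = 0) (hz : rankOne ℂ z z ∈ A) : ⟪z, f⟫_ℂ = 0 := by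
  by_cases h0 : z = 0
  · simp [h0]
  have hn : (‖z‖ : ℂ) ≠ 0 := by simpa using h0
  have h1 := h ((‖z‖ : ℂ)⁻¹ • z) ⟨by simp [norm_smul, h0], by
    have : rankOne ℂ ((‖z‖ : ℂ)⁻¹ • z) ((‖z‖ : ℂ)⁻¹ • z)
        = ((‖z‖ : ℂ)⁻¹ * (‖z‖ : ℂ)⁻¹) • rankOne ℂ z z := by
      ext g
      simp [smul_smul, mul_comm]
    rw [this]
    exact SMulMemClass.smul_mem _ hz⟩
  rw [inner_smul_left] at h1
  simpa [h0] using h1

lemma exists_unitary_perm {H ι : Type*} [NormedAddCommGroup H] [InnerProductSpace ℂ H]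
    [CompleteSpace H] (w : ι → H) (τ : ι → ι) (hτ : Function.Surjective τ)
    (h : ∀ i j, ⟪w i, w j⟫_ℂ = ⟪w (τ i), w (τ j)⟫_ℂ) :
    ∃ U : H ≃ₗᵢ[ℂ] H, (∀ i, U (w i) = w (τ i)) ∧
      ∀ g ∈ (Submodule.span ℂ (w '' univ)).topologicalClosureᗮ, U g = g := by
  set K := (Submodule.span ℂ (w '' univ)).topologicalClosure with hK
  have hmem : ∀ i, w i ∈ K := fun i =>
    Submodule.le_topologicalClosure _ (Submodule.subset_span ⟨i, mem_univ _, rfl⟩)
  have htop : ∀ τ : ι → ι, Function.Surjective τ →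
      (Submodule.span ℂ (range (Sum.elim (fun i => w (τ i))
        (fun g : Kᗮ => (g : H))))).topologicalClosure = ⊤ := by
    intro τ hτ
    rw [Submodule.topologicalClosure_eq_top_iff, Submodule.eq_bot_iff]
    intro f hf
    have h1 : f ∈ Kᗮ := by
      rw [hK, Submodule.orthogonal_closure]
      refine Submodule.orthogonal_le (Submodule.span_mono ?_) hf
      rintro _ ⟨φ, -, rfl⟩
      obtain ⟨ψ, rfl⟩ := hτ φ
      exact ⟨Sum.inl ψ, rfl⟩
    exact inner_self_eq_zero.mp (hf f (Submodule.subset_span ⟨Sum.inr ⟨f, h1⟩, rfl⟩))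
  obtain ⟨U, hU⟩ := exists_unitary_of_gram _ _ (htop id Function.surjective_id) (htop _ hτ) (by
    rintro (φ | g) (ψ | g')
    · exact h φ ψ
    · simp only [Sum.elim_inl, Sum.elim_inr, id]
      rw [Submodule.inner_right_of_mem_orthogonal (hmem _) g'.2,
        Submodule.inner_right_of_mem_orthogonal (hmem _) g'.2]
    · simp only [Sum.elim_inl, Sum.elim_inr, id]
      rw [Submodule.inner_left_of_mem_orthogonal (hmem _) g.2,
        Submodule.inner_left_of_mem_orthogonal (hmem _) g.2]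
    · rfl)
  exact ⟨U, fun φ => hU (Sum.inl φ), fun g hg => hU (Sum.inr ⟨g, hg⟩)⟩

variable {X : Type u} [MeasurableSpace X] {μ : Measure X}

/-- `U` intertwines the indicators of `A` and `B` on `K` -/
def Rel (K : Submodule ℂ (Lp ℂ 2 μ)) (U : Lp ℂ 2 μ ≃ₗᵢ[ℂ] Lp ℂ 2 μ) (A B : Set X) : Prop :=
  ∃ (hA : MeasurableSet A) (hB : MeasurableSet B),
    ∀ f ∈ K, proj μ A hA f ∈ K ∧ U (proj μ A hA f) = proj μ B hB (U f)

section Rel

variable {K : Submodule ℂ (Lp ℂ 2 μ)} {U : Lp ℂ 2 μ ≃ₗᵢ[ℂ] Lp ℂ 2 μ} {A B A' B' : Set X}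

lemma Rel.empty : Rel K U ∅ ∅ :=
  ⟨MeasurableSet.empty, MeasurableSet.empty, fun f _ => by
    simp [proj_eq_zero MeasurableSet.empty measure_empty]⟩

lemma Rel.compl (h : Rel K U A B) : Rel K U Aᶜ Bᶜ := by
  obtain ⟨hA, hB, h⟩ := h
  refine ⟨hA.compl, hB.compl, fun f hf => ?_⟩
  rw [proj_compl hA, proj_compl hB, map_sub, (h f hf).2]
  exact ⟨K.sub_mem hf (h f hf).1, rfl⟩

lemma Rel.inter (h : Rel K U A B) (h' : Rel K U A' B') : Rel K U (A ∩ A') (B ∩ B') := by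
  obtain ⟨hA, hB, h⟩ := h
  obtain ⟨hA', hB', h'⟩ := h'
  refine ⟨hA.inter hA', hB.inter hB', fun f hf => ?_⟩
  rw [← proj_proj hA hA', ← proj_proj hB hB', ← (h' f hf).2]
  exact h _ (h' f hf).1

lemma Rel.union (h : Rel K U A B) (h' : Rel K U A' B') : Rel K U (A ∪ A') (B ∪ B') := by
  have := (h.compl.inter h'.compl).compl
  rwa [compl_inter, compl_inter, compl_compl, compl_compl, compl_compl, compl_compl] at this

lemma Rel.iUnion_mono (hK : IsClosed (K : Set (Lp ℂ 2 μ))) {s t : ℕ → Set X} (hs : Monotone s)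
    (ht : Monotone t) (h : ∀ k, Rel K U (s k) (t k)) : Rel K U (⋃ k, s k) (⋃ k, t k) := by
  choose hA hB h using h
  refine ⟨MeasurableSet.iUnion hA, MeasurableSet.iUnion hB, fun f hf => ⟨?_, ?_⟩⟩
  · have : CompleteSpace K := hK.completeSpace_coe
    rw [← K.orthogonal_orthogonal, Submodule.mem_orthogonal]
    intro g hg
    refine tendsto_nhds_unique (tendsto_inner_proj hA hs g f) ?_
    have : ∀ k, ⟪g, proj μ (s k) (hA k) f⟫_ℂ = 0 := fun k =>
      Submodule.inner_left_of_mem_orthogonal (h k f hf).1 hg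
    simp [this]
  · refine ext_inner_left ℂ fun g => ?_
    have h1 := tendsto_inner_proj hA hs (U.symm g) f
    have h2 := tendsto_inner_proj hB ht g (U f)
    have h3 : ∀ z, ⟪U.symm g, z⟫_ℂ = ⟪g, U z⟫_ℂ := fun z => by
      rw [← U.inner_map_map, U.apply_symm_apply]
    simp only [h3] at h1
    refine tendsto_nhds_unique h1 ?_
    simpa only [fun k => (h k f hf).2] using h2

lemma Rel.iUnion (hK : IsClosed (K : Set (Lp ℂ 2 μ))) {s t : ℕ → Set X}
    (h : ∀ k, Rel K U (s k) (t k)) : Rel K U (⋃ k, s k) (⋃ k, t k) := by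
  rw [← iUnion_accumulate, ← iUnion_accumulate (s := t)]
  refine Rel.iUnion_mono hK monotone_accumulate monotone_accumulate fun k => ?_
  induction k with
  | zero => simpa using h 0
  | succ k ih =>
    rw [accumulate_succ, accumulate_succ]
    exact ih.union (h _)

end Rel

section Diffuse

variable {Y : Set X} (hY : MeasurableSet Y) (hY' : μ Y ≠ ∞) {I : Type u} {c : I → Set X}
  (hc : ∀ i, MeasurableSet (c i))

/-- Walsh functions -/
noncomputable def W (φ : I →₀ ZMod 2) : Lp ℂ 2 μ :=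
  rf μ (D c φ) (measurableSet_D c φ fun i _ => hc i) (indicatorConstLp 2 hY hY' (1 : ℂ))

/-- closed span of the Walsh functions -/
noncomputable def KK : Submodule ℂ (Lp ℂ 2 μ) :=
  (Submodule.span ℂ (W hY hY' hc '' univ)).topologicalClosure

lemma W_mem (φ : I →₀ ZMod 2) : W hY hY' hc φ ∈ KK hY hY' hc :=
  Submodule.le_topologicalClosure _ (Submodule.subset_span ⟨φ, mem_univ _, rfl⟩)

lemma isClosed_KK : IsClosed (KK hY hY' hc : Set (Lp ℂ 2 μ)) :=
  Submodule.isClosed_topologicalClosure _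

lemma W_zero : W hY hY' hc 0 = indicatorConstLp 2 hY hY' (1 : ℂ) := by
  rw [W, rf_congr _ MeasurableSet.univ (D_zero c), rf_apply, proj_univ, two_smul]
  simp

lemma rf_W (φ ψ : I →₀ ZMod 2) :
    rf μ (D c φ) (measurableSet_D c φ fun i _ => hc i) (W hY hY' hc ψ) = W hY hY' hc (φ + ψ) := by
  rw [W, W, rf_rf, rf_congr _ _ (D_add c φ ψ).symm]

lemma proj_W (i : I) (φ : I →₀ ZMod 2) : proj μ (c i) (hc i) (W hY hY' hc φ)
    = (2⁻¹ : ℂ) • (W hY hY' hc (Finsupp.single i 1 + φ) + W hY hY' hc φ) := by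
  rw [proj_eq_rf, ← rf_W, rf_congr _ (hc i) (D_single c i)]

lemma inner_W (φ ψ : I →₀ ZMod 2) : ⟪W hY hY' hc φ, W hY hY' hc ψ⟫_ℂ
    = 2 * (μ.real (D c (φ + ψ) ∩ Y) : ℂ) - μ.real Y := by
  rw [W, inner_rf_left, rf_W, W, rf_apply, inner_sub_right, inner_smul_right,
    inner_indicator_proj, L2.inner_indicatorConstLp_one_indicatorConstLp_one, inter_self]
  rfl

lemma proj_Y_indicator : proj μ Y hY (indicatorConstLp 2 hY hY' (1 : ℂ))
    = indicatorConstLp 2 hY hY' (1 : ℂ) := by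
  rw [proj_indicator, indicator_congr _ hY _ hY' (inter_self Y)]

lemma proj_Y_of_mem {f : Lp ℂ 2 μ} (hf : f ∈ KK hY hY' hc) : proj μ Y hY f = f :=
  ext_closure (W hY hY' hc) univ (proj μ Y hY) 1
    (fun φ _ => by rw [W, proj_rf, proj_Y_indicator]; rfl) hf

lemma exists_rel (hG : Gen (μ.restrict Y) (range c)) (σ : Equiv.Perm I)
    (U : Lp ℂ 2 μ ≃ₗᵢ[ℂ] Lp ℂ 2 μ)
    (hU : ∀ φ, U (W hY hY' hc φ) = W hY hY' hc (Finsupp.mapDomain σ φ))
    {A : Set X} (hA : MeasurableSet A) : ∃ B, Rel (KK hY hY' hc) U A B := by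
  obtain ⟨A', hA', hAA'⟩ := hG.2 A hA
  have h1 : ∃ B, Rel (KK hY hY' hc) U A' B := by
    clear hAA'
    induction A', hA' using generateFrom_induction with
    | hC t ht _ =>
      obtain ⟨i, rfl⟩ := ht
      refine ⟨c (σ i), hc i, hc _, fun f hf => ⟨?_, ?_⟩⟩
      · refine maps_closure _ _ _ _ (isClosed_KK hY hY' hc) (fun φ _ => ?_) hf
        rw [proj_W]
        exact Submodule.smul_mem _ _ (Submodule.add_mem _ (W_mem _ _ _ _) (W_mem _ _ _ _))
      · refine ext_closure _ _ ((U : Lp ℂ 2 μ →L[ℂ] Lp ℂ 2 μ) ∘L proj μ (c i) (hc i))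
          (proj μ (c (σ i)) (hc _) ∘L (U : Lp ℂ 2 μ →L[ℂ] Lp ℂ 2 μ)) (fun φ _ => ?_) hf
        change U (proj μ (c i) (hc i) (W hY hY' hc φ))
          = proj μ (c (σ i)) (hc _) (U (W hY hY' hc φ))
        rw [hU, proj_W, proj_W, map_smul, map_add, hU, hU, Finsupp.mapDomain_add,
          Finsupp.mapDomain_single]
    | empty => exact ⟨∅, Rel.empty⟩
    | compl t _ ih =>
      obtain ⟨B, h⟩ := ih
      exact ⟨Bᶜ, h.compl⟩
    | iUnion s _ ih =>
      choose B h using ih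
      exact ⟨⋃ k, B k, Rel.iUnion (isClosed_KK hY hY' hc) h⟩
  obtain ⟨B, hA'', hB, h⟩ := h1
  refine ⟨B, hA, hB, fun f hf => ?_⟩
  have h2 : proj μ A hA f = proj μ A' hA'' f := by
    rw [← proj_Y_of_mem hY hY' hc hf, proj_proj, proj_proj]
    apply proj_congr_ae
    filter_upwards [(ae_restrict_iff' hY).mp hAA'] with x hx
    apply propext
    change x ∈ A ∩ Y ↔ x ∈ A' ∩ Y
    simp only [mem_inter_iff, and_congr_left_iff]
    exact fun hxY => (hx hxY).to_iff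
  rw [h2]
  exact h f hf

lemma proj_Y_mem (hG : Gen (μ.restrict Y) (range c)) (f : Lp ℂ 2 μ) :
    proj μ Y hY f ∈ KK hY hY' hc ∧ f - proj μ Y hY f ∈ (KK hY hY' hc)ᗮ := by
  have : CompleteSpace (KK hY hY' hc) := (isClosed_KK hY hY' hc).completeSpace_coe
  obtain ⟨k, hk, g, hg, rfl⟩ := (KK hY hY' hc).exists_add_mem_mem_orthogonal f
  have hg0 : proj μ Y hY g = 0 := by
    refine proj_eq_zero_of_inner hY hY' fun A hA => ?_
    obtain ⟨B, _, _, h⟩ := exists_rel hY hY' hc hG 1 (LinearIsometryEquiv.refl ℂ _)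
      (fun φ => by simp [Finsupp.mapDomain_id]) hA
    refine Submodule.inner_right_of_mem_orthogonal ?_ hg
    rw [← W_zero hY hY' hc]
    exact (h _ (W_mem _ _ _ _)).1
  rw [map_add, hg0, add_zero, proj_Y_of_mem hY hY' hc hk]
  exact ⟨hk, by simpa using hg⟩

lemma suppMeasure_unitary (hG : Gen (μ.restrict Y) (range c)) (σ : Equiv.Perm I)
    (U : Lp ℂ 2 μ ≃ₗᵢ[ℂ] Lp ℂ 2 μ)
    (hU : ∀ φ, U (W hY hY' hc φ) = W hY hY' hc (Finsupp.mapDomain σ φ))
    (hU' : ∀ g ∈ (KK hY hY' hc)ᗮ, U g = g) {A : Set X} (hA : MeasurableSet A) :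
    suppMeasure μ ((U : Lp ℂ 2 μ →L[ℂ] Lp ℂ 2 μ) * proj μ A hA) ≤ (1 : ℝ≥0) * μ A := by
  obtain ⟨B, _, hB, h⟩ := exists_rel hY hY' hc hG σ U hU hA
  have hy : U (indicatorConstLp 2 hY hY' (1 : ℂ)) = indicatorConstLp 2 hY hY' (1 : ℂ) := by
    have := hU 0
    rwa [Finsupp.mapDomain_zero, W_zero] at this
  have hmeas : μ (B ∩ Y) = μ (A ∩ Y) := by
    have h1 := (h _ (W_mem hY hY' hc 0)).2
    rw [W_zero, hy] at h1
    have h2 := inner_indicator_proj hB hY hY'
    rw [← h1] at h2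
    nth_rewrite 1 [← hy] at h2
    rw [U.inner_map_map, inner_indicator_proj] at h2
    have h3 : μ.real (A ∩ Y) = μ.real (B ∩ Y) := by exact_mod_cast h2
    exact ((ENNReal.toReal_eq_toReal_iff'
      (ne_top_of_le_ne_top hY' (measure_mono inter_subset_right))
      (ne_top_of_le_ne_top hY' (measure_mono inter_subset_right))).mp h3).symm
  have hC : MeasurableSet ((B ∩ Y) ∪ (A ∩ Yᶜ)) := (hB.inter hY).union (hA.inter hY.compl)
  refine (suppMeasure_le hC fun f => ?_).trans ?_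
  · change proj μ _ hC (U (proj μ A hA f)) = U (proj μ A hA f)
    have h1 := proj_Y_mem hY hY' hc hG f
    have h2 := proj_Y_mem hY hY' hc hG (proj μ A hA f)
    have h3 : proj μ Y hY (proj μ A hA f) = proj μ A hA (proj μ Y hY f) := by
      rw [proj_proj, proj_proj, proj_congr _ _ (inter_comm Y A)]
    have h4 : U (proj μ Y hY f) ∈ KK hY hY' hc :=
      maps_closure _ _ (U : Lp ℂ 2 μ →L[ℂ] Lp ℂ 2 μ) _ (isClosed_KK hY hY' hc)
        (fun φ _ => by
          change U _ ∈ _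
          rw [hU]; exact W_mem _ _ _ _) h1.1
    have h5 : U (proj μ A hA f) = proj μ (B ∩ Y) (hB.inter hY) (U (proj μ Y hY f))
        + proj μ (A ∩ Yᶜ) (hA.inter hY.compl) f := by
      rw [← proj_proj hB hY, proj_Y_of_mem hY hY' hc h4, ← (h _ h1.1).2, ← h3,
        proj_congr _ (hY.compl.inter hA) (inter_comm A Yᶜ), ← proj_proj hY.compl hA,
        proj_compl hY, ← hU' _ h2.2, ← map_add, add_sub_cancel]
    rw [h5, map_add, proj_proj, proj_proj, proj_congr _ (hB.inter hY)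
      (inter_eq_right.mpr subset_union_left), proj_congr _ (hA.inter hY.compl)
      (inter_eq_right.mpr subset_union_right)]
  · rw [ENNReal.coe_one, one_mul, meas_split A hY, ← hmeas]
    exact measure_union_le _ _

lemma exists_unitary
    (horth : Pairwise fun φ ψ => ⟪W hY hY' hc φ, W hY hY' hc ψ⟫_ℂ = 0) (σ : Equiv.Perm I) :
    ∃ U : Lp ℂ 2 μ ≃ₗᵢ[ℂ] Lp ℂ 2 μ,
      (∀ φ, U (W hY hY' hc φ) = W hY hY' hc (Finsupp.mapDomain σ φ)) ∧
      ∀ g ∈ (KK hY hY' hc)ᗮ, U g = g := by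
  have hinj : Function.Injective (Finsupp.mapDomain (M := ZMod 2) σ) :=
    Finsupp.mapDomain_injective σ.injective
  refine exists_unitary_perm (W hY hY' hc) _ (Finsupp.mapDomain_surjective σ.surjective)
    fun φ ψ => ?_
  by_cases h : φ = ψ
  · subst h
    rw [inner_W, inner_W, (add_eq_zero_iff_eq _ _).mpr rfl, (add_eq_zero_iff_eq _ _).mpr rfl]
  · rw [horth h, horth (hinj.ne h)]

lemma bddSuppExp_unitary (hG : Gen (μ.restrict Y) (range c)) (σ : Equiv.Perm I)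
    (U : Lp ℂ 2 μ ≃ₗᵢ[ℂ] Lp ℂ 2 μ)
    (hU : ∀ φ, U (W hY hY' hc φ) = W hY hY' hc (Finsupp.mapDomain σ φ))
    (hU' : ∀ g ∈ (KK hY hY' hc)ᗮ, U g = g) :
    BddSuppExp μ (U : Lp ℂ 2 μ →L[ℂ] Lp ℂ 2 μ) := by
  refine ⟨1, fun A hA => ⟨suppMeasure_unitary hY hY' hc hG σ U hU hU' hA, ?_⟩⟩
  rw [U.star_eq_symm]
  refine suppMeasure_unitary hY hY' hc hG σ⁻¹ U.symm (fun φ => ?_) (fun g hg => ?_) hA
  · rw [U.symm_apply_eq, hU, ← Finsupp.mapDomain_comp]
    simp [Finsupp.mapDomain_id]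
  · rw [U.symm_apply_eq, hU' g hg]

lemma rankOne_mem_diffuse [Infinite I] (hY0 : μ Y ≠ 0) (hG : Gen (μ.restrict Y) (range c))
    (horth : Pairwise fun φ ψ => ⟪W hY hY' hc φ, W hY hY' hc ψ⟫_ℂ = 0) :
    rankOne ℂ (indicatorConstLp 2 hY hY' (1 : ℂ)) (indicatorConstLp 2 hY hY' (1 : ℂ)) ∈ Cu μ := by
  obtain ⟨σ, Ap, Am, hp, hm, hσ⟩ := exists_pingpong I
  choose U hU hU' using fun k => exists_unitary hY hY' hc horth (σ k)
  rw [← W_zero hY hY' hc]
  refine rankOne_mem_of_pingpong (Cu μ) (StarSubalgebra.isClosed_topologicalClosure _)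
    (W hY hY' hc) horth 0 ?_ U (fun k => Finsupp.mapDomain (σ k)) hU
    (fun k => Finsupp.mapDomain_zero) (fun k φ h h0 => h ?_) Ap Am hp hm hσ
    (fun k => StarSubalgebra.le_topologicalClosure _
      (bddSuppExp_unitary hY hY' hc hG (σ k) (U k) (hU k) (hU' k)))
    (Q := proj μ Y hY) (StarSubalgebra.le_topologicalClosure _ (bddSuppExp_proj hY))
    (fun f => (proj_Y_mem hY hY' hc hG f).1) fun f => ?_
  · intro h
    have h1 := inner_W hY hY' hc 0 0
    rw [h, inner_zero_left, add_zero, D_zero, univ_inter, two_mul, add_sub_cancel_right] at h1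
    have h2 : μ.real Y = 0 := by exact_mod_cast h1.symm
    exact hY0 ((measureReal_eq_zero_iff hY').mp h2)
  · apply Finsupp.mapDomain_injective (σ k).injective
    rw [h0, Finsupp.mapDomain_zero]
  · rw [← inner_proj_left, W_zero, proj_Y_indicator]

end Diffuse

lemma rankOne_mem_atom {Y : Set X} (hY : MeasurableSet Y) (hY' : μ Y ≠ ∞)
    (h : ∀ A, MeasurableSet A → μ (A ∩ Y) = 0 ∨ μ (Aᶜ ∩ Y) = 0) :
    rankOne ℂ (indicatorConstLp 2 hY hY' (1 : ℂ)) (indicatorConstLp 2 hY hY' (1 : ℂ)) ∈ Cu μ := by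
  have h1 : ∀ (A : Set X) (hA : MeasurableSet A), suppMeasure μ
      (rankOne ℂ (indicatorConstLp 2 hY hY' (1 : ℂ)) (indicatorConstLp 2 hY hY' (1 : ℂ))
        * proj μ A hA) ≤ (1 : ℝ≥0) * μ A := by
    intro A hA
    rw [ENNReal.coe_one, one_mul]
    rcases h A hA with h0 | h0
    · refine (suppMeasure_le MeasurableSet.empty fun f => ?_).trans (by simp)
      rw [mul_apply_eq_comp, rankOne_apply, ← inner_proj_left, ← proj_Y_indicator hY hY',
        proj_proj, proj_eq_zero _ h0, inner_zero_left, zero_smul, map_zero]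
    · refine (suppMeasure_le hY fun f => ?_).trans ?_
      · rw [mul_apply_eq_comp, rankOne_apply, map_smul, proj_Y_indicator]
      · rw [meas_split Y hA, inter_comm Y Aᶜ, h0, add_zero]
        exact measure_mono inter_subset_right
  refine StarSubalgebra.le_topologicalClosure _ ⟨1, fun A hA => ⟨h1 A hA, ?_⟩⟩
  rw [ContinuousLinearMap.star_eq_adjoint, adjoint_rankOne]
  exact h1 A hA

lemma exists_rankOne_mem {E : Set X} (hE : MeasurableSet E) (h0 : μ E ≠ 0) (htop : μ E ≠ ∞) :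
    ∃ (Y : Set X) (hY : MeasurableSet Y) (hY' : μ Y ≠ ∞), Y ⊆ E ∧ μ Y ≠ 0 ∧
      rankOne ℂ (indicatorConstLp 2 hY hY' (1 : ℂ)) (indicatorConstLp 2 hY hY' (1 : ℂ)) ∈ Cu μ := by
  obtain ⟨Y, hY, hYE, hY0, h⟩ := maharam μ hE h0 htop
  have hY' : μ Y ≠ ∞ := ne_top_of_le_ne_top htop (measure_mono hYE)
  refine ⟨Y, hY, hY', hYE, hY0, ?_⟩
  rcases h with h | ⟨I, _, _, c, hind, hG⟩
  · exact rankOne_mem_atom hY hY' h
  · have hc : ∀ i, MeasurableSet (c i) := fun i => hG.1 _ (mem_range_self i)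
    refine rankOne_mem_diffuse hY hY' hc hY0 hG fun φ ψ hne => ?_
    have : IsFiniteMeasure (μ.restrict Y) := isFiniteMeasure_restrict.mpr hY'
    have h1 := measure_D hc hind (φ + ψ) (mt (add_eq_zero_iff_eq _ _).mp hne)
    rw [Measure.restrict_apply (measurableSet_D c _ fun i _ => hc i),
      Measure.restrict_apply_univ] at h1
    have h2 : 2 * μ.real (D c (φ + ψ) ∩ Y) = μ.real Y := by
      simpa [Measure.real] using congrArg ENNReal.toReal h1
    beta_reduce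
    rw [inner_W, ← h2]
    push_cast
    ring

theorem total_Cu (μ : Measure X) : Total (Cu μ) := by
  intro f hf
  by_contra hcon
  push Not at hcon
  obtain ⟨s, hs, hs', hint⟩ : ∃ s, MeasurableSet s ∧ μ s < ∞ ∧ ∫ x in s, f x ∂μ ≠ 0 := by
    by_contra hc
    push Not at hc
    apply hf
    apply Lp.ext
    exact (Lp.ae_eq_zero_of_forall_setIntegral_eq_zero _ (by norm_num) (by norm_num)
      (fun s _ hs => integrableOn_Lp_of_measure_ne_top _ (by norm_num) hs.ne) hc).trans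
      (Lp.coeFn_zero ℂ 2 μ).symm
  have hN : MeasurableSet {x | f x ≠ 0} :=
    (Lp.stronglyMeasurable f).measurable (measurableSet_singleton (0 : ℂ)).compl
  obtain ⟨Y, hY, hY', hYE, hY0, hmem⟩ := exists_rankOne_mem (μ := μ) (hN.inter hs) (by
    intro h0
    apply hint
    rw [← Measure.restrict_apply hN] at h0
    exact integral_eq_zero_of_ae h0)
    (ne_top_of_le_ne_top hs'.ne (measure_mono inter_subset_right))
  have h1 : proj μ Y hY f = 0 := by
    refine proj_eq_zero_of_inner hY hY' fun A hA => ?_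
    refine inner_eq_zero_of_rankOne_mem (Cu μ) hcon ?_
    have hp : proj μ A hA ∈ Cu μ := StarSubalgebra.le_topologicalClosure _ (bddSuppExp_proj hA)
    have h2 := mul_mem (mul_mem hp hmem) hp
    convert h2 using 1
    ext1 g
    rw [mul_apply_eq_comp, mul_apply_eq_comp, rankOne_apply, rankOne_apply, map_smul,
      inner_proj_left]
  apply hY0
  rw [measure_eq_zero_iff_ae_notMem]
  have h2 := coeFn_proj hY f
  rw [h1] at h2
  filter_upwards [h2, Lp.coeFn_zero ℂ 2 μ] with x h3 h4 hx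
  rw [h4, indicator_of_mem hx] at h3
  exact (hYE hx).1 h3.symm

end Pool.Agent.Lib.MP_612f91_an
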